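import Pool.Agent.Helper6.HM.Defs

/-!
# HM-G: the room of two separated sets

`X = {x_0 < ... < x_n} ⊂ [0,Λ]` and `Y = X + a` have all distances `≥ H`.

Proof. For a gap `(x_i, x_{i+1})` of length `t_i` let `I_i = Ioo (x_i) (x_{i+1})` if `t_i < 2H` and
`I_i = Ioo (x_i) (x_i + H/2) ∪ Ioo (x_{i+1} - H/2) (x_{i+1})` if `t_i ≥ 2H` (the two pieces are disjoint); `J_i = I_i + a`.
Lengths: `|I_i| = phi H t_i = |J_i|`. All `I_i`, `J_j` are pairwise disjoint and contained in `[0, Λ + a]`:
* `I_i`, `I_j` (`i ≠ j`) lie in different gaps of `X`; the same for `J`.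
* `z ∈ I_i ∩ J_j`: (i) both small gaps: `x_i < z < x_{i+1}`, `y_j < z < y_{j+1}`. If `x_i < y_j` then `y_j ∈ (x_i, x_{i+1})`, so
  `y_j - x_i > H`, `x_{i+1} - y_j > H`, `t_i > 2H`, contradiction; if `y_j < x_i` then `x_i ∈ (y_j, y_{j+1})` and the
  gap of `Y` is `> 2H`; `x_i = y_j` is impossible. (ii) `I_i` a small gap and `|z - y| < H/2` for some `y ∈ Y`: `y` is
  not in `[x_i, x_{i+1}]` (else `t_i > 2H`, or a distance `0`), so `|z - y| > H` (for `y < x_i`: `z - y > x_i - y > H`), contradiction;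
  the same with `X`, `Y` exchanged. (iii) both near: `|z - x| < H/2`, `|z - y| < H/2` gives `|x - y| < H`, contradiction.
So `2 Σ phi H t_i ≤ Λ + a` (volume of a finite disjoint union in `Icc 0 (Λ + a)`, `measureReal` or `volume.toReal`;
it may be easier to index by `Fin n × Bool`, or to take the union `U_X` of the `I_i`, show `volume U_X = Σ`, `volume (U_X + a)` the
same, `Disjoint U_X (U_X + a)`). The case `n = 0` is trivial (`0 ≤ Λ` from `h0`, `h1`).
-/

set_option autoImplicit false

open MeasureTheory Set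

namespace Pool.Agent.Helper6.HM

/-- the interval attached to a gap -/
private def I5 (H p q : ℝ) : Set ℝ :=
  {z | p < z ∧ z < q ∧ (q - p < 2 * H ∨ z - p < H / 2 ∨ q - z < H / 2)}

private lemma I5_small {H p q : ℝ} (h : q - p < 2 * H) : I5 H p q = Ioo p q := by
  ext z
  simp only [I5, mem_setOf_eq, mem_Ioo]
  tauto

private lemma I5_big {H p q : ℝ} (hH : 0 < H) (h : ¬ q - p < 2 * H) :
    I5 H p q = Ioo p (p + H / 2) ∪ Ioo (q - H / 2) q := by
  ext z
  simp only [I5, mem_setOf_eq, mem_union, mem_Ioo]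
  constructor
  · rintro ⟨h1, h2, h3 | h3 | h3⟩
    · exact absurd h3 h
    · left
      constructor <;> linarith
    · right
      constructor <;> linarith
  · push Not at h
    rintro (⟨h1, h2⟩ | ⟨h1, h2⟩)
    · refine ⟨h1, by linarith, Or.inr (Or.inl (by linarith))⟩
    · refine ⟨by linarith, h2, Or.inr (Or.inr (by linarith))⟩

private lemma I5_meas {H p q : ℝ} (hH : 0 < H) : MeasurableSet (I5 H p q) := by
  by_cases h : q - p < 2 * H
  · rw [I5_small h]
    exact measurableSet_Ioo
  · rw [I5_big hH h]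
    exact measurableSet_Ioo.union measurableSet_Ioo

private lemma I5_vol {H p q : ℝ} (hH : 0 < H) : volume (I5 H p q) = ENNReal.ofReal (phi H (q - p)) := by
  unfold phi
  by_cases h : q - p < 2 * H
  · rw [I5_small h, if_pos h, Real.volume_Ioo]
  · rw [I5_big hH h, if_neg h, measure_union _ measurableSet_Ioo, Real.volume_Ioo, Real.volume_Ioo,
      ← ENNReal.ofReal_add (by linarith) (by linarith)]
    · congr 1
      ring
    · push Not at h
      rw [Set.disjoint_left]
      rintro z ⟨h1, h2⟩ ⟨h3, h4⟩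
      linarith

private lemma I5_sep {H p q p' q' z : ℝ} (hH : 0 < H) (h1 : H ≤ |p - p'|) (h2 : H ≤ |p - q'|)
    (h3 : H ≤ |q - p'|) (h4 : H ≤ |q - q'|) (hz : z ∈ I5 H p q) (hz' : z ∈ I5 H p' q') : False := by
  obtain ⟨a1, a2, a3⟩ := hz
  obtain ⟨b1, b2, b3⟩ := hz'
  rw [le_abs] at h1 h2 h3 h4
  rcases h1 with h1 | h1 <;> rcases h2 with h2 | h2 <;> rcases h3 with h3 | h3 <;>
    rcases h4 with h4 | h4 <;> rcases a3 with a3 | a3 | a3 <;> rcases b3 with b3 | b3 | b3 <;> linarith

theorem gaps_room {n : ℕ} (x : Fin (n + 1) → ℝ) (hx : StrictMono x) {H a Λ : ℝ} (hH : 0 < H) (ha : 0 ≤ a)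
    (h0 : 0 ≤ x 0) (h1 : x (Fin.last n) ≤ Λ) (hsep : ∀ i j, H ≤ |x i - (x j + a)|) :
    ∑ i : Fin n, phi H (x i.succ - x i.castSucc) ≤ (Λ + a) / 2 := by
  have hpos : ∀ i : Fin n, 0 < x i.succ - x i.castSucc := fun i =>
    sub_pos.2 (hx (Fin.castSucc_lt_succ))
  have hphi : ∀ i : Fin n, 0 ≤ phi H (x i.succ - x i.castSucc) := by
    intro i
    unfold phi
    split_ifs
    · exact (hpos i).le
    · exact hH.le
  set U : Set ℝ := ⋃ i : Fin n, I5 H (x i.castSucc) (x i.succ) with hU
  have hUm : MeasurableSet U := MeasurableSet.iUnion fun i => I5_meas hH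
  have hUv : volume U = ENNReal.ofReal (∑ i : Fin n, phi H (x i.succ - x i.castSucc)) := by
    rw [hU, measure_iUnion _ fun i => I5_meas hH, tsum_fintype,
      ENNReal.ofReal_sum_of_nonneg fun i _ => hphi i]
    · exact Finset.sum_congr rfl fun i _ => I5_vol hH
    · have key : ∀ i j : Fin n, i < j →
          Disjoint (I5 H (x i.castSucc) (x i.succ)) (I5 H (x j.castSucc) (x j.succ)) := by
        intro i j hij
        rw [Set.disjoint_left]
        rintro z ⟨_, h2, _⟩ ⟨h3, _, _⟩
        have h4 : x i.succ ≤ x j.castSucc := by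
          apply hx.monotone
          rw [Fin.le_def, Fin.val_succ, Fin.val_castSucc]
          exact hij
        linarith
      intro i j hij
      rcases lt_or_gt_of_ne hij with h | h
      · exact key i j h
      · exact (key j i h).symm
  set V : Set ℝ := (fun z => z + (-a)) ⁻¹' U with hV
  have hVm : MeasurableSet V := hUm.preimage (measurable_add_const _)
  have hVv : volume V = volume U := measure_preimage_add_right _ _ _
  have hdis : Disjoint U V := by
    rw [Set.disjoint_left]
    intro z hz hz'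
    obtain ⟨i, hi⟩ := mem_iUnion.1 hz
    obtain ⟨j, hj⟩ := mem_iUnion.1 hz'
    have hj' : z ∈ I5 H (x j.castSucc + a) (x j.succ + a) := by
      obtain ⟨b1, b2, b3⟩ := hj
      refine ⟨by linarith, by linarith, ?_⟩
      rcases b3 with b3 | b3 | b3
      · left
        linarith
      · right
        left
        linarith
      · right
        right
        linarith
    exact I5_sep hH (hsep _ _) (hsep _ _) (hsep _ _) (hsep _ _) hi hj'
  have hΛ : 0 ≤ Λ := by
    have := hx.monotone (Fin.zero_le (Fin.last n))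
    linarith
  have hsub : U ∪ V ⊆ Icc 0 (Λ + a) := by
    have hU' : ∀ z ∈ U, 0 < z ∧ z < Λ := by
      intro z hz
      obtain ⟨i, hi⟩ := mem_iUnion.1 hz
      obtain ⟨b1, b2, _⟩ := hi
      have h2 : x 0 ≤ x i.castSucc := hx.monotone (Fin.zero_le _)
      have h3 : x i.succ ≤ x (Fin.last n) := hx.monotone (Fin.le_last _)
      constructor <;> linarith
    rintro z (hz | hz)
    · obtain ⟨h2, h3⟩ := hU' z hz
      exact ⟨h2.le, by linarith⟩
    · obtain ⟨h2, h3⟩ := hU' _ hz
      constructor <;> linarith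
  have h2 := measure_mono (μ := volume) hsub
  rw [measure_union hdis hVm, hVv, hUv, Real.volume_Icc, ← ENNReal.ofReal_add
    (Finset.sum_nonneg fun i _ => hphi i) (Finset.sum_nonneg fun i _ => hphi i),
    ENNReal.ofReal_le_ofReal_iff (by linarith)] at h2
  linarith

end Pool.Agent.Helper6.HM
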