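import Pool.Agent.Helper6.HM.Defs

/-!
# HM-K: the numerical inequality

For all `t > 0`: `1 - psi (sinc (π t)) ≤ .947 phi(.6965, t) + .18 t` (`Real.sinc y = sin y / y`, `1` at `0`). Checked on a grid of
step `1e-4`: the smallest slack is `.0104` at `t = .812` for `t < 1.393`, and `.0034` at `t = 1.393` for `t ≥ 1.393`.

Proof. (a) `t ≥ 1.8912`: the right side is `≥ 1` (`.947 * .6965 + .18 * 1.8912 > 1`) and `psi ≥ 0`.
(b) `1.393 ≤ t ≤ 1.8912`: `|sin (π t)| = cos (π (t - 3/2)) ≥ 1 - w²/2 > 0`, `w = π (t - 3/2)`, `|w| ≤ 1.23`; `|sinc| ≤ 1/(π t) < 1/2`, so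
`psi = 2 sinc²`, and it suffices `2 (1 - w²/2)² ≥ (1 - .947*.6965 - .18 t) (π t)²` (slack `.0033 (π t)²` or more; use
`3.14159 < π < 3.14160`, and cut the interval if needed; at `t = 1.393`: left side `.09296 (π t)²`, right side `.08968 (π t)²`).
(c) `0 < t < 1.393`: `phi = t`, the right side is `1.127 t`, nothing to prove for `t ≥ .8874`. For `1/2 ≤ t ≤ .8874`:
`sin (π t) = sin y ≥ y - y³/6`, `y = π (1 - t) ∈ [0, π/2]`; and for all real `g`: `psi g ≥ 2 g²` is FALSE for `|g| > 1/2`, but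
`psi g ≥ (3/2) g²` for `|g| ≤ 1` and `psi g = 2 g²` for `|g| ≤ 1/2` (`t ≥ .61`: `sinc ≤ 1/2`). For `t ≤ 1/2`: `sin u ≥ u - u³/6` with `u = π t`, so
`sinc ≥ 1 - u²/6 ≥ .588`, `psi = 2 sinc - 1/2 ≥ 3/2 - u²/3 ≥ 1 - 1.127 t` (`1/2 + 1.127 t ≥ 3.29 t²` on `[0,1/2]`: `.5 + .5635 ≥ .8225`).
On `[1/2, .61]`: `psi ≥ (3/2) sinc²` or `2 sinc - 1/2` with `sinc ≥ (y - y³/6)/(π t)`.
-/

set_option autoImplicit false

namespace Pool.Agent.Helper6.HM

private lemma psi_nonneg54 (g : ℝ) : 0 ≤ psi g := by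
  unfold psi
  split_ifs with h
  · positivity
  · push Not at h
    linarith

private lemma psi_lin54 {g G : ℝ} (h : G ≤ |g|) : 2 * G - 1 / 2 ≤ psi g := by
  unfold psi
  split_ifs with h1
  · have h2 : g ^ 2 = |g| ^ 2 := (sq_abs g).symm
    rw [h2]
    nlinarith [sq_nonneg (|g| - 1 / 2)]
  · linarith

private lemma psi_sq54 {g G : ℝ} (h0 : 0 ≤ G) (h : G ≤ |g|) (h1 : G ≤ 1 / 2) :
    2 * G ^ 2 ≤ psi g := by
  unfold psi
  split_ifs with h2
  · have h3 : g ^ 2 = |g| ^ 2 := (sq_abs g).symm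
    rw [h3]
    nlinarith
  · push Not at h2
    nlinarith

private lemma pi_sq54 : (98696 / 10000 : ℝ) ≤ Real.pi ^ 2 ∧ Real.pi ^ 2 ≤ 98697 / 10000 := by
  have h1 := Real.pi_gt_d6
  have h2 := Real.pi_lt_d6
  constructor <;> nlinarith

/-- the polynomial inequality of case (b), `s = t - 3/2` -/
private lemma poly_b54 {s : ℝ} (h1 : -(107 / 1000) ≤ s) (h2 : s ≤ 3913 / 10000) :
    (3404145 / 10000000 - 9 / 50 * (s + 3 / 2)) * (98697 / 10000) * (s + 3 / 2) ^ 2 ≤
      2 * (1 - 98697 / 20000 * s ^ 2) ^ 2 := by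
  have h3 : 0 ≤ (160039596766407 / 50000000000000 : ℝ) + 1754555025339 / 50000000000 * s +
      9741097809 / 200000000 * s ^ 2 := by
    nlinarith [mul_nonneg (show 0 ≤ s + 107 / 1000 by linarith) (show 0 ≤ s + 107 / 1000 by linarith)]
  have h4 := mul_nonneg (sq_nonneg (s - 342 / 1000)) h3
  have h5 : (0 : ℝ) ≤ 774251163922242913 / 12500000000000000000 -
      17095424128551 / 6250000000000000 * s := by linarith
  have h6 : 2 * (1 - 98697 / 20000 * s ^ 2) ^ 2 -
      (3404145 / 10000000 - 9 / 50 * (s + 3 / 2)) * (98697 / 10000) * (s + 3 / 2) ^ 2 =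
      (s - 342 / 1000) ^ 2 * ((160039596766407 / 50000000000000 : ℝ) +
        1754555025339 / 50000000000 * s + 9741097809 / 200000000 * s ^ 2) +
      (774251163922242913 / 12500000000000000000 - 17095424128551 / 6250000000000000 * s) := by
    ring
  linarith

/-- the polynomial inequality of case (c), `r = 1 - t ∈ [.1126, .39]` -/
private lemma poly_c54 {r : ℝ} (h1 : 1126 / 10000 ≤ r) (h2 : r ≤ 39 / 100) :
    (1127 / 1000 * r - 127 / 1000) * (1 - r) ^ 2 ≤ 2 * r ^ 2 * (1 - 2 * (98697 / 60000) * r ^ 2) := by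
  have h3 : 0 ≤ (16053525447 / 5000000000 : ℝ) - 9167007 / 2500000 * r - 32899 / 5000 * r ^ 2 := by
    nlinarith
  have h4 := mul_nonneg (sq_nonneg (r - 193 / 1000)) h3
  have h5 : (0 : ℝ) ≤ 37022230624697 / 5000000000000000 - 6353872493 / 1250000000000 * r := by
    linarith
  have h6 : 2 * r ^ 2 * (1 - 2 * (98697 / 60000) * r ^ 2) -
      (1127 / 1000 * r - 127 / 1000) * (1 - r) ^ 2 =
      (r - 193 / 1000) ^ 2 * ((16053525447 / 5000000000 : ℝ) - 9167007 / 2500000 * r -
        32899 / 5000 * r ^ 2) +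
      (37022230624697 / 5000000000000000 - 6353872493 / 1250000000000 * r) := by
    ring
  linarith

theorem key_ineq {t : ℝ} (ht : 0 < t) :
    1 - psi (Real.sinc (Real.pi * t)) ≤ 947 / 1000 * phi (1393 / 2000) t + 9 / 50 * t := by
  have hpi := Real.pi_pos
  have hpt : 0 < Real.pi * t := mul_pos hpi ht
  have hsinc : Real.sinc (Real.pi * t) = Real.sin (Real.pi * t) / (Real.pi * t) :=
    Real.sinc_of_ne_zero hpt.ne'
  obtain ⟨hP1, hP2⟩ := pi_sq54
  obtain ⟨g, hg⟩ : ∃ g, g = Real.sinc (Real.pi * t) := ⟨_, rfl⟩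
  have habs : |g| = |Real.sin (Real.pi * t)| / (Real.pi * t) := by
    rw [hg, hsinc, abs_div, abs_of_pos hpt]
  rw [← hg]
  have hpsi := psi_nonneg54 g
  unfold phi
  split_ifs with hcase
  · -- the small gaps
    have hlt : t < 1393 / 1000 := by linarith
    by_cases hc1 : 8874 / 10000 ≤ t
    · linarith
    push Not at hc1
    -- the lower bound for the sine near `π`
    have hy : ∀ r : ℝ, 0 ≤ r → r = 1 - t →
        r * (1 - Real.pi ^ 2 * r ^ 2 / 6) / t ≤ |g| := by
      intro r hr hrt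
      have h1 := Real.sin_ge_sub_cube (show 0 ≤ Real.pi * r by positivity)
      have h2 : Real.sin (Real.pi * t) = Real.sin (Real.pi * r) := by
        rw [hrt, mul_sub, mul_one, Real.sin_pi_sub]
      rw [habs, h2, div_le_div_iff₀ ht hpt]
      have h3 : Real.pi * (r * (1 - Real.pi ^ 2 * r ^ 2 / 6)) ≤ |Real.sin (Real.pi * r)| := by
        refine le_trans (le_of_eq ?_) (h1.trans (le_abs_self _))
        ring
      have h4 := mul_le_mul_of_nonneg_right h3 ht.le
      linarith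
    by_cases hc2 : 61 / 100 ≤ t
    · obtain ⟨r, hr⟩ : ∃ r, r = 1 - t := ⟨_, rfl⟩
      have hr1 : 1126 / 10000 ≤ r := by linarith
      have hr2 : r ≤ 39 / 100 := by linarith
      have hr0 : 0 ≤ r := by linarith
      have hG := hy r hr0 hr
      have hq0 : Real.pi ^ 2 * r ^ 2 / 6 ≤ 98697 / 60000 * r ^ 2 := by nlinarith [sq_nonneg r]
      have hq2 : 98697 / 60000 * r ^ 2 ≤ 1 := by nlinarith
      have hq1 : 0 ≤ Real.pi ^ 2 * r ^ 2 / 6 := by positivity
      -- the comparison value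
      obtain ⟨G, hGd⟩ : ∃ G, G = r * (1 - 98697 / 60000 * r ^ 2) / t := ⟨_, rfl⟩
      have hG0 : 0 ≤ G := by
        rw [hGd]
        apply div_nonneg (mul_nonneg hr0 (by linarith)) ht.le
      have hG1 : G ≤ |g| := by
        refine le_trans ?_ hG
        rw [hGd]
        apply div_le_div_of_nonneg_right _ ht.le
        apply mul_le_mul_of_nonneg_left _ hr0
        linarith
      have hG2 : G ≤ 1 / 2 := by
        rw [hGd, div_le_iff₀ ht]
        have h1 : t = 1 - r := by linarith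
        rw [h1]
        nlinarith [mul_nonneg hr0 (sq_nonneg r), sq_nonneg (r - 39 / 100),
          mul_nonneg hr0 (sq_nonneg (r - 39 / 100))]
      have h5 := psi_sq54 hG0 hG1 hG2
      have h6 : 1 - 1127 / 1000 * t ≤ 2 * G ^ 2 := by
        rw [hGd, div_pow, mul_div_assoc', le_div_iff₀ (by positivity)]
        have h7 := poly_c54 hr1 hr2
        have h8 : t = 1 - r := by linarith
        rw [h8]
        have h9 : (1 - 1127 / 1000 * (1 - r)) * (1 - r) ^ 2 =
            (1127 / 1000 * r - 127 / 1000) * (1 - r) ^ 2 := by ring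
        have h10 : 2 * r ^ 2 * (1 - 2 * (98697 / 60000) * r ^ 2) ≤
            2 * (r * (1 - 98697 / 60000 * r ^ 2)) ^ 2 := by
          nlinarith [sq_nonneg (98697 / 60000 * r ^ 3)]
        linarith
      linarith
    push Not at hc2
    by_cases hc3 : 1 / 2 ≤ t
    · obtain ⟨r, hr⟩ : ∃ r, r = 1 - t := ⟨_, rfl⟩
      have hr1 : 39 / 100 ≤ r := by linarith
      have hr2 : r ≤ 1 / 2 := by linarith
      have hr0 : 0 ≤ r := by linarith
      have h1 := psi_lin54 (hy r hr0 hr)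
      have h2 : 1 - 1127 / 1000 * t ≤
          2 * (r * (1 - Real.pi ^ 2 * r ^ 2 / 6) / t) - 1 / 2 := by
        have h3 : (3 / 2 - 1127 / 1000 * t) * t ≤ 2 * (r * (1 - Real.pi ^ 2 * r ^ 2 / 6)) := by
          have h4 : Real.pi ^ 2 * r ^ 2 / 6 ≤ 42 / 100 := by nlinarith
          have h5 : t = 1 - r := by linarith
          rw [h5]
          nlinarith
        have h6 : 3 / 2 - 1127 / 1000 * t ≤ 2 * (r * (1 - Real.pi ^ 2 * r ^ 2 / 6)) / t := by
          rwa [le_div_iff₀ ht]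
        have h7 : 2 * (r * (1 - Real.pi ^ 2 * r ^ 2 / 6)) / t =
            2 * (r * (1 - Real.pi ^ 2 * r ^ 2 / 6) / t) := by ring
        linarith
      linarith
    push Not at hc3
    · have h1 := Real.sin_ge_sub_cube hpt.le
      have h2 : 1 - Real.pi ^ 2 * t ^ 2 / 6 ≤ |g| := by
        rw [habs, le_div_iff₀ hpt]
        refine le_trans (le_of_eq ?_) (h1.trans (le_abs_self _))
        ring
      have h3 := psi_lin54 h2
      nlinarith [mul_nonneg ht.le (show 0 ≤ 1 / 2 - t by linarith)]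
  · push Not at hcase
    have hge : 1393 / 1000 ≤ t := by linarith
    by_cases ha : 3404145 / 1800000 ≤ t
    · linarith
    push Not at ha
    obtain ⟨s, hs⟩ : ∃ s, s = t - 3 / 2 := ⟨_, rfl⟩
    have hs1 : -(107 / 1000) ≤ s := by linarith
    have hs2 : s ≤ 3913 / 10000 := by linarith
    have hts : t = s + 3 / 2 := by linarith
    have hcos := Real.one_sub_sq_div_two_le_cos (x := Real.pi * s)
    have hsin : Real.sin (Real.pi * t) = - Real.cos (Real.pi * s) := by
      have h1 : Real.pi * t = Real.pi * s + Real.pi / 2 + Real.pi := by rw [hts]; ring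
      rw [h1, Real.sin_add_pi, Real.sin_add_pi_div_two]
    have hs3 : s ^ 2 ≤ 1532 / 10000 := by nlinarith
    have hq : 0 ≤ 1 - 98697 / 20000 * s ^ 2 := by nlinarith
    obtain ⟨G, hGd⟩ : ∃ G, G = (1 - 98697 / 20000 * s ^ 2) / (Real.pi * t) := ⟨_, rfl⟩
    have hG0 : 0 ≤ G := by
      rw [hGd]
      exact div_nonneg hq hpt.le
    have hG1 : G ≤ |g| := by
      rw [hGd, habs, hsin, abs_neg]
      apply div_le_div_of_nonneg_right _ hpt.le
      refine le_trans ?_ (hcos.trans (le_abs_self _))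
      have h1 : (Real.pi * s) ^ 2 / 2 = Real.pi ^ 2 * s ^ 2 / 2 := by ring
      rw [h1]
      nlinarith [sq_nonneg s]
    have hG2 : G ≤ 1 / 2 := by
      rw [hGd, div_le_iff₀ hpt]
      have h1 := Real.pi_gt_three
      nlinarith [sq_nonneg s]
    have h5 := psi_sq54 hG0 hG1 hG2
    have h6 : 3404145 / 10000000 - 9 / 50 * t ≤ 2 * G ^ 2 := by
      rw [hGd, div_pow, mul_div_assoc', le_div_iff₀ (by positivity)]
      have h7 := poly_b54 hs1 hs2
      have h8 : 0 ≤ 3404145 / 10000000 - 9 / 50 * t := by linarith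
      have h9 : (3404145 / 10000000 - 9 / 50 * t) * (Real.pi * t) ^ 2 ≤
          (3404145 / 10000000 - 9 / 50 * t) * (98697 / 10000) * t ^ 2 := by
        have h10 : (Real.pi * t) ^ 2 ≤ 98697 / 10000 * t ^ 2 := by
          rw [mul_pow]
          exact mul_le_mul_of_nonneg_right hP2 (sq_nonneg t)
        have h11 := mul_le_mul_of_nonneg_left h10 h8
        linarith
      rw [hts] at h9 ⊢
      linarith
    linarith

end Pool.Agent.Helper6.HM
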