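import Pool.Agent.Helper6.HM.Block

/-!
# HM project: finite form of the main inequality (`Data.main`)

`E` the Gram matrix of the zeros, `st` the reflection, `m` the multiplicities, `c` an admissible off-diagonal part.
-/

set_option autoImplicit false

open Matrix Finset
open scoped ComplexOrder ComplexConjugate

namespace Pool.Agent.Helper6.HM

variable {ι : Type*} [Fintype ι] [DecidableEq ι]

open scoped MatrixOrder Matrix.Norms.L2Operator in
lemma exists_root {E : Matrix ι ι ℂ} (hE : E.PosSemidef) : ∃ Y : Matrix ι ι ℂ, E = Yᴴ * Y :=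
  CStarAlgebra.nonneg_iff_eq_star_mul_self.mp hE.nonneg

namespace Data

variable (D : Data ι) {c : ι → ι → ℂ}

noncomputable def V (Y : Matrix ι ι ℂ) : Matrix ι ι ℂ :=
  Matrix.of fun k i => (D.α i : ℂ) * Y k i + (D.β i : ℂ) * Y k (D.st i)

noncomputable def W (Y : Matrix ι ι ℂ) : Matrix ι ι ℂ :=
  Matrix.of fun k i => (D.β i : ℂ) * (Y k i - Y k (D.st i))

/-- weighted reflection -/
noncomputable def J : Matrix ι ι ℂ := Matrix.of fun i j => if j = D.st i then (D.m i : ℂ) else 0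

def P : Equiv.Perm ι := ⟨D.st, D.st, D.hst, D.hst⟩

variable {D}

lemma αβ_st (i : ι) : D.α (D.st i) = D.α i ∧ D.β (D.st i) = D.β i := by
  unfold α β
  rw [D.hms, D.hst]
  by_cases h : D.st i = i
  · rw [if_pos h, if_pos h, if_pos h.symm, if_pos h.symm]; exact ⟨rfl, rfl⟩
  · rw [if_neg h, if_neg h, if_neg (fun e => h e.symm), if_neg (fun e => h e.symm)]; exact ⟨rfl, rfl⟩

lemma sqrt_m (i : ι) : ((Real.sqrt (D.m i) : ℝ) : ℂ) * (Real.sqrt (D.m i) : ℝ) = (D.m i : ℂ) := by
  rw [← Complex.ofReal_mul, Real.mul_self_sqrt (Nat.cast_nonneg _)]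
  simp

lemma VW_entry (Y : Matrix ι ι ℂ) (k l i : ι) :
    D.V Y k i * conj (D.V Y l i) - D.W Y k i * conj (D.W Y l i) =
      (D.m i : ℂ) / 2 * (Y k i * conj (Y l (D.st i)) + Y k (D.st i) * conj (Y l i)) := by
  unfold V W α β
  rw [← sqrt_m]
  simp only [of_apply, map_add, map_sub, map_mul, Complex.conj_ofReal]
  by_cases h : D.st i = i
  · rw [if_pos h, if_pos h, h]
    push_cast
    ring
  · rw [if_neg h, if_neg h]
    push_cast
    ring

lemma B_eq (Y : Matrix ι ι ℂ) : D.V Y * (D.V Y)ᴴ - D.W Y * (D.W Y)ᴴ = Y * D.J * Yᴴ := by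
  ext k l
  have e1 : (D.V Y * (D.V Y)ᴴ - D.W Y * (D.W Y)ᴴ) k l =
      ∑ i, (D.m i : ℂ) / 2 * (Y k i * conj (Y l (D.st i)) + Y k (D.st i) * conj (Y l i)) := by
    rw [Matrix.sub_apply, Matrix.mul_apply, Matrix.mul_apply, ← sum_sub_distrib]
    refine sum_congr rfl fun i _ => ?_
    rw [conjTranspose_apply, conjTranspose_apply, RCLike.star_def, VW_entry]
  have e2 : (Y * D.J * Yᴴ) k l = ∑ i, (D.m i : ℂ) * (Y k i * conj (Y l (D.st i))) := by
    rw [Matrix.mul_assoc, Matrix.mul_apply]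
    refine sum_congr rfl fun i _ => ?_
    rw [Matrix.mul_apply]
    have : ∀ j, D.J i j * Yᴴ j l = if j = D.st i then (D.m i : ℂ) * conj (Y l j) else 0 := by
      intro j
      rw [conjTranspose_apply, RCLike.star_def]
      unfold J
      rw [of_apply]
      split_ifs <;> simp
    simp only [this]
    rw [Finset.sum_ite_eq' univ (D.st i)]
    simp
    ring
  rw [e1, e2]
  have e3 : ∑ i, (D.m i : ℂ) / 2 * (Y k (D.st i) * conj (Y l i)) = ∑ i, (D.m i : ℂ) / 2 * (Y k i * conj (Y l (D.st i))) := by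
    rw [← Equiv.sum_comp D.P]
    refine sum_congr rfl fun i _ => ?_
    show (D.m (D.st i) : ℂ) / 2 * (Y k (D.st (D.st i)) * conj (Y l (D.st i))) = _
    rw [D.hst, D.hms]
  simp only [mul_add, sum_add_distrib]
  rw [e3, ← sum_add_distrib]
  refine sum_congr rfl fun i _ => ?_
  ring

lemma B_sq {Y : Matrix ι ι ℂ} (hY : D.E = Yᴴ * Y) :
    ((Y * D.J * Yᴴ) * (Y * D.J * Yᴴ)).trace = ∑ i, ∑ j, (D.m i : ℂ) * D.m j * (D.E (D.st i) j * D.E (D.st j) i) := by
  have e1 : ((Y * D.J * Yᴴ) * (Y * D.J * Yᴴ)).trace = ((D.J * D.E) * (D.J * D.E)).trace := by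
    calc ((Y * D.J * Yᴴ) * (Y * D.J * Yᴴ)).trace = (Y * (D.J * (Yᴴ * Y) * D.J * Yᴴ)).trace := by
          simp only [Matrix.mul_assoc]
      _ = (D.J * (Yᴴ * Y) * D.J * Yᴴ * Y).trace := Matrix.trace_mul_comm _ _
      _ = _ := by rw [← hY]; simp only [Matrix.mul_assoc, ← hY]
  rw [e1, Matrix.trace]
  refine sum_congr rfl fun i _ => ?_
  rw [diag_apply, Matrix.mul_apply]
  have e2 : ∀ i j, (D.J * D.E) i j = (D.m i : ℂ) * D.E (D.st i) j := by
    intro i j
    rw [Matrix.mul_apply]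
    have : ∀ k, D.J i k * D.E k j = if k = D.st i then (D.m i : ℂ) * D.E k j else 0 := by
      intro k
      unfold J
      rw [of_apply]
      split_ifs <;> simp
    simp only [this]
    rw [Finset.sum_ite_eq' univ (D.st i)]
    simp
  refine sum_congr rfl fun j _ => ?_
  rw [e2, e2]
  ring

lemma G_apply {Y : Matrix ι ι ℂ} (hY : D.E = Yᴴ * Y) (i j : ι) : ((D.V Y)ᴴ * D.V Y) i j =
    D.α i * D.α j * D.E i j + D.α i * D.β j * D.E i (D.st j) + D.β i * D.α j * D.E (D.st i) j +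
      D.β i * D.β j * D.E (D.st i) (D.st j) := by
  rw [hY]
  simp only [Matrix.mul_apply, conjTranspose_apply, RCLike.star_def, mul_sum]
  rw [← sum_add_distrib, ← sum_add_distrib, ← sum_add_distrib]
  refine sum_congr rfl fun k _ => ?_
  unfold V
  simp only [of_apply, map_add, map_mul, Complex.conj_ofReal]
  ring

lemma WW_trace {Y : Matrix ι ι ℂ} (hY : D.E = Yᴴ * Y) : ((D.W Y)ᴴ * D.W Y).trace.re =
    ∑ i, D.β i ^ 2 * ((D.E i i).re + (D.E (D.st i) (D.st i)).re - 2) := by
  rw [Matrix.trace, Complex.re_sum]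
  refine sum_congr rfl fun i _ => ?_
  rw [diag_apply]
  have e1 : ((D.W Y)ᴴ * D.W Y) i i = ((D.β i ^ 2 : ℝ) : ℂ) * (D.E i i - D.E i (D.st i) - D.E (D.st i) i + D.E (D.st i) (D.st i)) := by
    rw [hY]
    simp only [Matrix.mul_apply, conjTranspose_apply, RCLike.star_def]
    rw [← sum_sub_distrib, ← sum_sub_distrib, ← sum_add_distrib, mul_sum]
    refine sum_congr rfl fun k _ => ?_
    unfold W
    simp only [of_apply, map_mul, map_sub, Complex.conj_ofReal]
    push_cast
    ring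
  have h1 : D.E i (D.st i) = 1 := D.hE1 i
  have h2 : D.E (D.st i) i = 1 := by
    have := D.hE1 (D.st i)
    rwa [D.hst] at this
  rw [e1, h1, h2, Complex.re_ofReal_mul]
  simp only [Complex.add_re, Complex.sub_re, Complex.one_re]
  ring

lemma GT_trace (h : D.Adm c) {Y : Matrix ι ι ℂ} (hY : D.E = Yᴴ * Y) : (((D.V Y)ᴴ * D.V Y) * D.T c).trace.re =
    ∑ i, ((((D.V Y)ᴴ * D.V Y) i i).re * D.dd i + (if D.st i ≠ i then (((D.V Y)ᴴ * D.V Y) (D.st i) i).re else 0)) +
      ∑ i, ∑ j, (D.E j i * c i j).re := by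
  set G : Matrix ι ι ℂ := (D.V Y)ᴴ * D.V Y with hG
  rw [Matrix.trace_mul_comm, Matrix.trace, Complex.re_sum, ← sum_add_distrib]
  refine sum_congr rfl fun i _ => ?_
  rw [diag_apply, Matrix.mul_apply]
  have e1 : ∀ j, D.T c i j * G j i = (if j = i then (D.dd i : ℂ) * G j i else 0) +
      (if j = D.st i then (if D.st i ≠ i then G j i else 0) else 0) + D.E j i * c i j := by
    intro j
    have e2 : c i j * G j i = D.E j i * c i j := by
      by_cases h0 : c i j = 0
      · rw [h0]; ring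
      · have h1 := (h.supp i j h0).2
        have h2 := h.sim_right h0
        have h3 : ∀ k, D.Sim k → D.α k = 1 ∧ D.β k = 0 := by
          intro k hk
          unfold α β
          rw [if_pos hk.1, if_pos hk.1, hk.2]
          simp
        rw [hG, G_apply hY, (h3 i h1).1, (h3 i h1).2, (h3 j h2).1, (h3 j h2).2]
        push_cast
        ring
    rw [T_apply, add_mul, add_mul, e2]
    congr 1
    congr 1
    · split_ifs <;> simp
    · by_cases h4 : j = D.st i
      · by_cases h5 : D.st i ≠ i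
        · rw [if_pos ⟨h4, h5⟩, if_pos h4, if_pos h5]; simp
        · rw [if_neg (fun h' => h5 h'.2), if_pos h4, if_neg h5]; simp
      · rw [if_neg (fun h' => h4 h'.1), if_neg h4]; simp
  simp only [e1, sum_add_distrib]
  rw [Finset.sum_ite_eq' univ i, Finset.sum_ite_eq' univ (D.st i)]
  simp only [mem_univ, if_true, Complex.add_re, Complex.re_sum, Complex.re_ofReal_mul]
  congr 1
  congr 1
  · ring
  · split_ifs <;> simp

end Data

/-- the main inequality, finite form -/
theorem Data.main (D : Data ι) {c : ι → ι → ℂ} (h : D.Adm c) :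
    ∑ i, (if D.st i = i ∧ D.m i = 1 then (1:ℝ) else 2 * D.m i) +
      ∑ i, ∑ j, (2 * (D.E j i * c i j).re - ‖c i j‖ ^ 2) ≤
    (∑ i, ∑ j, (D.m i : ℂ) * D.m j * (D.E (D.st i) j * D.E (D.st j) i)).re := by
  obtain ⟨Y, hY⟩ := exists_root D.hE
  have h1 := trace_lower (D.V Y) (D.W Y) (Data.T_psd h) (Data.T_two h)
  rw [Data.B_eq, Data.B_sq hY, Data.GT_trace h hY, Data.T_sq h, Data.WW_trace hY] at h1
  refine le_trans ?_ h1
  have h2 : ∀ i, (if D.st i = i ∧ D.m i = 1 then (1:ℝ) else 2 * D.m i) ≤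
      2 * ((((D.V Y)ᴴ * D.V Y) i i).re * D.dd i + (if D.st i ≠ i then (((D.V Y)ᴴ * D.V Y) (D.st i) i).re else 0)) -
      (D.dd i ^ 2 + (if D.st i ≠ i then 1 else 0)) -
      4 * (D.β i ^ 2 * ((D.E i i).re + (D.E (D.st i) (D.st i)).re - 2)) := by
    intro i
    have hE1 : D.E i (D.st i) = 1 := D.hE1 i
    have hE2 : D.E (D.st i) i = 1 := by
      have := D.hE1 (D.st i)
      rwa [D.hst] at this
    have hm : (1:ℝ) ≤ D.m i := by exact_mod_cast D.hm i
    have hsq : Real.sqrt (D.m i) * Real.sqrt (D.m i) = D.m i := Real.mul_self_sqrt (Nat.cast_nonneg _)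
    by_cases h3 : D.st i = i
    · have hα : D.α i = Real.sqrt (D.m i) := by unfold Data.α; rw [if_pos h3]
      have hβ : D.β i = 0 := by unfold Data.β; rw [if_pos h3]
      have hG : (((D.V Y)ᴴ * D.V Y) i i).re = D.m i := by
        rw [Data.G_apply hY, hα, hβ]
        have : D.E i i = 1 := by rw [h3] at hE1; exact hE1
        rw [this, ← Complex.ofReal_mul, hsq]
        simp
      have hn : ¬ (D.st i ≠ i) := fun h' => h' h3
      rw [hG, hβ, if_neg hn, if_neg hn]
      by_cases h4 : D.m i = 1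
      · have hd : D.dd i = 1 := by unfold Data.dd; rw [if_neg (fun h' => by have := h'.2; omega)]
        rw [if_pos ⟨h3, h4⟩, hd, h4]
        norm_num
      · have h5 : 2 ≤ D.m i := by have := D.hm i; omega
        have hd : D.dd i = 2 := by unfold Data.dd; rw [if_pos ⟨h3, h5⟩]
        rw [if_neg (fun h' => h4 h'.2), hd]
        have h6 : (2:ℝ) ≤ D.m i := by exact_mod_cast h5
        linarith
    · have hα : D.α i = Real.sqrt (D.m i) / 2 := by unfold Data.α; rw [if_neg h3]
      have hβ : D.β i = Real.sqrt (D.m i) / 2 := by unfold Data.β; rw [if_neg h3]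
      have hab := Data.αβ_st (D := D) i
      have hd : D.dd i = 1 := by unfold Data.dd; rw [if_neg (fun h' => h3 h'.1)]
      have hc4 : ((Real.sqrt (D.m i) / 2 : ℝ) : ℂ) * ((Real.sqrt (D.m i) / 2 : ℝ) : ℂ) = ((D.m i / 4 : ℝ) : ℂ) := by
        rw [← Complex.ofReal_mul]
        congr 1
        linear_combination hsq / 4
      have hG1 : (((D.V Y)ᴴ * D.V Y) i i).re = D.m i / 4 * ((D.E i i).re + (D.E (D.st i) (D.st i)).re + 2) := by
        rw [Data.G_apply hY, hα, hβ, hc4, hE1, hE2]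
        simp only [Complex.add_re, Complex.re_ofReal_mul, Complex.one_re]
        ring
      have hG2 : (((D.V Y)ᴴ * D.V Y) (D.st i) i).re = D.m i / 4 * ((D.E i i).re + (D.E (D.st i) (D.st i)).re + 2) := by
        rw [Data.G_apply hY, hab.1, hab.2, D.hst, hα, hβ, hc4, hE1, hE2]
        simp only [Complex.add_re, Complex.re_ofReal_mul, Complex.one_re]
        ring
      have hβ2 : D.β i ^ 2 = D.m i / 4 := by
        rw [hβ]
        linear_combination hsq / 4
      rw [hG1, hG2, hβ2, hd, if_pos h3, if_pos h3, if_neg (fun h' => h3 h'.1)]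
      linarith
  have h3 := sum_le_sum (s := univ) fun i _ => h2 i
  have h4 : ∑ i, ∑ j, (2 * (D.E j i * c i j).re - ‖c i j‖ ^ 2) =
      2 * ∑ i, ∑ j, (D.E j i * c i j).re - ∑ i, ∑ j, ‖c i j‖ ^ 2 := by
    rw [mul_sum, ← sum_sub_distrib]
    refine sum_congr rfl fun i _ => ?_
    rw [mul_sum, ← sum_sub_distrib]
  rw [h4]
  simp only [sum_add_distrib, sum_sub_distrib, ← mul_sum] at h3 ⊢
  linarith

end Pool.Agent.Helper6.HM
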