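import Mathlib

/-!
# HM project: the kernel `Gam` and its Gram matrices
-/

set_option autoImplicit false

open Matrix Finset MeasureTheory intervalIntegral
open scoped ComplexOrder ComplexConjugate

namespace Pool.Agent.Helper6.HM

/-- `(1/θ) ∫_{-θ/2}^{θ/2} T^{xw} dx` -/
noncomputable def Gam (T th : ℝ) (w : ℂ) : ℂ :=
  ∫ x in (-(th / 2))..(th / 2), ((1 / th : ℝ) : ℂ) * Complex.exp ((x : ℂ) * ((Real.log T : ℂ) * w))

lemma Gam_zero (T : ℝ) {th : ℝ} (hth : 0 < th) : Gam T th 0 = 1 := by
  unfold Gam
  simp only [mul_zero, Complex.exp_zero, mul_one]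
  rw [intervalIntegral.integral_const, sub_neg_eq_add, add_halves, Complex.real_smul, ← Complex.ofReal_mul,
    mul_one_div_cancel hth.ne', Complex.ofReal_one]

lemma Gam_neg (T th : ℝ) (w : ℂ) : Gam T th (-w) = Gam T th w := by
  unfold Gam
  have h := intervalIntegral.integral_comp_neg (a := -(th / 2)) (b := th / 2)
    (fun x : ℝ => ((1 / th : ℝ) : ℂ) * Complex.exp ((x : ℂ) * ((Real.log T : ℂ) * w)))
  rw [neg_neg] at h
  rw [← h]
  refine intervalIntegral.integral_congr fun x _ => ?_
  congr 2
  push_cast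
  ring

lemma Gam_conj (T th : ℝ) (w : ℂ) : conj (Gam T th w) = Gam T th (conj w) := by
  unfold Gam
  rw [← intervalIntegral_conj]
  refine intervalIntegral.integral_congr fun x _ => ?_
  rw [map_mul, Complex.conj_ofReal, ← Complex.exp_conj, map_mul, map_mul, Complex.conj_ofReal, Complex.conj_ofReal]

lemma Gam_im (T : ℝ) {th : ℝ} (hth : 0 < th) (d : ℝ) :
    Gam T th ((d : ℂ) * Complex.I) = ((Real.sinc (th * (Real.log T * d) / 2) : ℝ) : ℂ) := by
  unfold Gam
  rw [intervalIntegral.integral_const_mul]
  set y : ℝ := Real.log T * d with hy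
  have e : ∀ x : ℝ, Complex.exp ((x : ℂ) * ((Real.log T : ℂ) * ((d : ℂ) * Complex.I))) =
      Complex.exp (((y : ℂ) * Complex.I) * x) := by
    intro x
    congr 1
    rw [hy]
    push_cast
    ring
  simp only [e]
  by_cases h0 : y = 0
  · rw [h0]
    simp only [Complex.ofReal_zero, zero_mul, Complex.exp_zero, mul_zero, zero_div, Real.sinc_zero]
    rw [intervalIntegral.integral_const, sub_neg_eq_add, add_halves, Complex.real_smul, mul_one, ← Complex.ofReal_mul,
      one_div_mul_cancel hth.ne']
  · have hyI : (y : ℂ) * Complex.I ≠ 0 := by simp [h0]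
    rw [integral_exp_mul_complex hyI]
    have hs : th * y / 2 ≠ 0 := by positivity
    rw [Real.sinc_of_ne_zero hs]
    have e1 : (y : ℂ) * Complex.I * ((th / 2 : ℝ) : ℂ) = ((th * y / 2 : ℝ) : ℂ) * Complex.I := by push_cast; ring
    have e2 : (y : ℂ) * Complex.I * ((-(th / 2) : ℝ) : ℂ) = -((th * y / 2 : ℝ) : ℂ) * Complex.I := by push_cast; ring
    rw [e1, e2]
    have e3 : Complex.exp (((th * y / 2 : ℝ) : ℂ) * Complex.I) - Complex.exp (-((th * y / 2 : ℝ) : ℂ) * Complex.I) =
        2 * Complex.sin ((th * y / 2 : ℝ) : ℂ) * Complex.I := by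
      rw [Complex.sin]
      have hI := Complex.I_mul_I
      linear_combination (-(Complex.exp (-((th * y / 2 : ℝ) : ℂ) * Complex.I) - Complex.exp (((th * y / 2 : ℝ) : ℂ) * Complex.I))) * hI
    rw [e3, ← Complex.ofReal_sin]
    have hyc : (y : ℂ) ≠ 0 := by exact_mod_cast h0
    have htc : (th : ℂ) ≠ 0 := by exact_mod_cast hth.ne'
    push_cast
    field_simp

/-- the Gram matrix of the functions `T^{x(ρ-1/2)}` in `L²(dx/θ)` -/
noncomputable def Gram {ι : Type*} (T th : ℝ) (r : ι → ℂ) : Matrix ι ι ℂ :=
  Matrix.of fun i j => Gam T th (conj (r i) + r j - 1)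

lemma Gram_psd {ι : Type*} [Fintype ι] [DecidableEq ι] (T : ℝ) {th : ℝ} (hth : 0 < th) (r : ι → ℂ) :
    (Gram T th r).PosSemidef := by
  refine PosSemidef.of_dotProduct_mulVec_nonneg ?_ ?_
  · ext i j
    rw [conjTranspose_apply]
    unfold Gram
    rw [of_apply, of_apply, RCLike.star_def, Gam_conj]
    congr 1
    simp only [map_sub, map_add, Complex.conj_conj, map_one]
    ring
  · intro x
    set F : ℝ → ℂ := fun t => ∑ j, x j * Complex.exp ((t : ℂ) * ((Real.log T : ℂ) * (r j - 1 / 2))) with hF
    have hc : ∀ i j, Continuous (fun t : ℝ => ((1 / th : ℝ) : ℂ) * Complex.exp ((t : ℂ) * ((Real.log T : ℂ) * (conj (r i) + r j - 1)))) := by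
      intro i j
      fun_prop
    have e1 : star x ⬝ᵥ (Gram T th r *ᵥ x) = ∫ t in (-(th / 2))..(th / 2), (((1 / th) * ‖F t‖ ^ 2 : ℝ) : ℂ) := by
      have e2 : ∀ t : ℝ, (((1 / th) * ‖F t‖ ^ 2 : ℝ) : ℂ) = ∑ i, ∑ j, conj (x i) * x j *
          (((1 / th : ℝ) : ℂ) * Complex.exp ((t : ℂ) * ((Real.log T : ℂ) * (conj (r i) + r j - 1)))) := by
        intro t
        have e3 : (((1 / th) * ‖F t‖ ^ 2 : ℝ) : ℂ) = ((1 / th : ℝ) : ℂ) * (conj (F t) * F t) := by
          rw [Complex.conj_mul']
          push_cast
          ring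
        rw [e3, hF]
        simp only
        rw [map_sum, Finset.sum_mul_sum, mul_sum]
        refine sum_congr rfl fun i _ => ?_
        rw [mul_sum]
        refine sum_congr rfl fun j _ => ?_
        rw [map_mul, ← Complex.exp_conj]
        simp only [map_mul, map_sub, map_div₀, map_one, Complex.conj_ofReal, Complex.conj_ofNat]
        have e4 : Complex.exp ((t : ℂ) * ((Real.log T : ℂ) * (conj (r i) + r j - 1))) =
            Complex.exp ((t : ℂ) * ((Real.log T : ℂ) * (conj (r i) - 1 / 2))) *
              Complex.exp ((t : ℂ) * ((Real.log T : ℂ) * (r j - 1 / 2))) := by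
          rw [← Complex.exp_add]
          congr 1
          ring
        rw [e4]
        ring
      simp only [e2]
      rw [intervalIntegral.integral_finsetSum]
      · simp only [dotProduct, mulVec, Pi.star_apply, RCLike.star_def, mul_sum]
        refine sum_congr rfl fun i _ => ?_
        rw [intervalIntegral.integral_finsetSum]
        · refine sum_congr rfl fun j _ => ?_
          rw [intervalIntegral.integral_const_mul]
          unfold Gram Gam
          rw [of_apply]
          ring
        · intro j _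
          exact ((hc i j).const_mul _).intervalIntegrable _ _
      · intro i _
        refine Continuous.intervalIntegrable ?_ _ _
        refine continuous_finsetSum _ fun j _ => ?_
        exact (hc i j).const_mul _
    rw [e1, intervalIntegral.integral_ofReal]
    refine Complex.zero_le_real.2 ?_
    refine intervalIntegral.integral_nonneg (by linarith) fun t _ => ?_
    positivity

end Pool.Agent.Helper6.HM
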