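import Pool.Agent.Helper57.M.Z
import Pool.Agent.Helper6.HM.Frame
import Pool.Agent.Helper6.HM.Gam

/-!
# HM project: the main inequality for the zeros of zeta
-/

set_option autoImplicit false

open Matrix Finset
open scoped ComplexOrder ComplexConjugate
open Pool.Agent.Helper57.LH Pool.Agent.Helper57.PC Pool.Agent.Helper57.Zeta

namespace Pool.Agent.Helper6.HM

open Classical in
/-- simple zeros on the line with ordinate in `[0,T]` -/
noncomputable def Sc (T : ℝ) : Finset ℂ := (Zf T).filter (fun ρ => ρ.re = 1 / 2 ∧ mult ρ = 1)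

/-- normalised ordinate -/
noncomputable def lev (T : ℝ) (ρ : ℂ) : ℝ := ρ.im * Real.log T / (2 * Real.pi)

/-- normalised ordinates of the simple zeros on the line -/
noncomputable def US (T : ℝ) : Finset ℝ := (Sc T).image (lev T)

lemma mem_Sc {T : ℝ} {ρ : ℂ} : ρ ∈ Sc T ↔ ρ ∈ Zf T ∧ ρ.re = 1 / 2 ∧ mult ρ = 1 := by
  unfold Sc
  rw [Finset.mem_filter]

lemma lev_inj {T : ℝ} (hT : 1 < T) : ∀ ρ ∈ Sc T, ∀ σ ∈ Sc T, lev T ρ = lev T σ → ρ = σ := by
  intro ρ hρ σ hσ h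
  rw [mem_Sc] at hρ hσ
  have hL : 0 < Real.log T := Real.log_pos hT
  have hpi := Real.pi_pos
  unfold lev at h
  have h1 : ρ.im = σ.im := by
    rw [div_left_inj' (by positivity)] at h
    exact mul_right_cancel₀ hL.ne' h
  exact Complex.ext (hρ.2.1.trans hσ.2.1.symm) h1

lemma card_US {T : ℝ} (hT : 1 < T) : (US T).card = (Sc T).card :=
  Finset.card_image_of_injOn fun ρ hρ σ hσ h => lev_inj hT ρ hρ σ hσ h

lemma sum_US {T : ℝ} (hT : 1 < T) (f : ℝ → ℝ) : ∑ u ∈ US T, f u = ∑ ρ ∈ Sc T, f (lev T ρ) :=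
  Finset.sum_image fun ρ hρ σ hσ h => lev_inj hT ρ hρ σ hσ h

lemma st_mem {T : ℝ} {ρ : ℂ} (h : ρ ∈ Zf T) : 1 - conj ρ ∈ Zf T ∧ mult (1 - conj ρ) = mult ρ := by
  rw [mem_Zf] at h
  have h1 : xi ρ = 0 := isNontrivialZero_iff.mp h.1
  have h2 : xi (1 - conj ρ) = 0 := by rw [xi_one_sub, xi_conj, h1, map_zero]
  have h3 : IsNontrivialZero (1 - conj ρ) := isNontrivialZero_iff.mpr h2
  refine ⟨mem_Zf.2 ⟨h3, ?_⟩, ?_⟩
  · simpa using h.2
  · rw [mult_eq h3, mult_eq h.1, order_one_sub, order_conj]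

lemma one_le_mult {T : ℝ} {ρ : ℂ} (h : ρ ∈ Zf T) : 1 ≤ mult ρ := by
  rw [mem_Zf] at h
  have h1 : xi ρ = 0 := isNontrivialZero_iff.mp h.1
  rw [mult_eq h.1]
  obtain ⟨g, -, hfg, hga⟩ := div_point differentiable_xi xi_two_ne ρ
  have hn : analyticOrderNatAt xi ρ ≠ 0 := by
    intro h0
    have h2 := hfg ρ
    rw [h0, pow_zero, one_mul, h1] at h2
    exact hga h2.symm
  exact Nat.one_le_iff_ne_zero.2 hn

open Classical in
/-- the data of the zeros -/
noncomputable def ZD (T : ℝ) {th : ℝ} (hth : 0 < th) : Data {ρ : ℂ // ρ ∈ Zf T} where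
  E := Gram T th (fun i => (i : ℂ))
  hE := Gram_psd T hth _
  st i := ⟨1 - conj (i : ℂ), (st_mem i.2).1⟩
  hst i := by
    apply Subtype.ext
    simp
  hE1 i := by
    show Gam T th (conj (i : ℂ) + (1 - conj (i : ℂ)) - 1) = 1
    rw [add_sub_cancel, sub_self, Gam_zero T hth]
  m i := mult (i : ℂ)
  hm i := one_le_mult i.2
  hms i := (st_mem i.2).2

open Classical in
theorem zeros_ineq {T th : ℝ} (hT : 1 < T) (hth : 0 < th) {c : ℝ → ℝ → ℝ} (hc1 : ∀ u v, c u v = c v u)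
    (hc2 : ∀ u, c u u = 0) (hc3 : ∀ u ∈ US T, ∑ v ∈ US T, |c u v| ≤ 1) :
    2 * NT T - (US T).card + ∑ u ∈ US T, ∑ v ∈ US T, (2 * Real.sinc (Real.pi * (th * (u - v))) * c u v - c u v ^ 2) ≤
      (∑ ρ ∈ Zf T, ∑ σ ∈ Zf T, (mx ρ : ℂ) * mx σ * Gam T th (ρ - σ) ^ 2).re := by
  set D := ZD T hth with hD
  have hsim : ∀ i : {ρ : ℂ // ρ ∈ Zf T}, D.Sim i ↔ (i : ℂ) ∈ Sc T := by
    intro i
    rw [mem_Sc]
    have h1 : D.st i = i ↔ (i : ℂ).re = 1 / 2 := by
      rw [Subtype.ext_iff]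
      show 1 - conj (i : ℂ) = (i : ℂ) ↔ _
      rw [Complex.ext_iff]
      simp only [Complex.sub_re, Complex.one_re, Complex.conj_re, Complex.sub_im, Complex.one_im, Complex.conj_im]
      constructor
      · rintro ⟨h, -⟩; linarith
      · intro h; constructor <;> linarith
    unfold Data.Sim
    rw [h1]
    show _ ∧ mult (i : ℂ) = 1 ↔ _
    exact ⟨fun h => ⟨i.2, h⟩, fun h => h.2⟩
  set c' : {ρ : ℂ // ρ ∈ Zf T} → {ρ : ℂ // ρ ∈ Zf T} → ℂ := fun i j =>
    if (i : ℂ) ∈ Sc T ∧ (j : ℂ) ∈ Sc T then ((c (lev T i) (lev T j) : ℝ) : ℂ) else 0 with hc'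
  have hSub : Sc T ⊆ Zf T := fun ρ hρ => (mem_Sc.1 hρ).1
  have hsum1 : ∀ f : ℂ → ℝ, ∑ j : {ρ : ℂ // ρ ∈ Zf T}, (if (j : ℂ) ∈ Sc T then f (j : ℂ) else 0) = ∑ σ ∈ Sc T, f σ := by
    intro f
    rw [Finset.sum_coe_sort (Zf T) (fun σ => if σ ∈ Sc T then f σ else 0), Finset.sum_ite_mem, Finset.inter_eq_right.2 hSub]
  have hadm : D.Adm c' := by
    refine ⟨fun i j => ?_, fun i j h => ?_, fun i => ?_⟩
    · simp only [hc']
      by_cases h : (i : ℂ) ∈ Sc T ∧ (j : ℂ) ∈ Sc T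
      · rw [if_pos h, if_pos h.symm, Complex.conj_ofReal, hc1]
      · rw [if_neg h, if_neg (fun h' => h h'.symm), map_zero]
    · simp only [hc'] at h
      by_cases h1 : (i : ℂ) ∈ Sc T ∧ (j : ℂ) ∈ Sc T
      · rw [if_pos h1] at h
        refine ⟨fun e => ?_, (hsim i).2 h1.1⟩
        subst e
        rw [hc2] at h
        exact h (by simp)
      · rw [if_neg h1] at h
        exact absurd rfl h
    · by_cases h : (i : ℂ) ∈ Sc T
      · have h1 := hc3 (lev T i) (Finset.mem_image_of_mem _ h)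
        rw [sum_US hT] at h1
        have h2 : ∑ j, ‖c' i j‖ = ∑ σ ∈ Sc T, |c (lev T i) (lev T σ)| := by
          rw [← hsum1]
          refine sum_congr rfl fun j _ => ?_
          simp only [hc']
          by_cases h3 : (j : ℂ) ∈ Sc T
          · rw [if_pos ⟨h, h3⟩, if_pos h3, Complex.norm_real, Real.norm_eq_abs]
          · rw [if_neg (fun h' => h3 h'.2), if_neg h3, norm_zero]
        rw [h2]
        exact h1
      · have h2 : ∑ j, ‖c' i j‖ = 0 := by
          refine sum_eq_zero fun j _ => ?_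
          simp only [hc']
          rw [if_neg (fun h' => h h'.1), norm_zero]
        rw [h2]
        norm_num
  have hmain := Data.main D hadm
  have e1 : ∑ i, (if D.st i = i ∧ D.m i = 1 then (1:ℝ) else 2 * D.m i) = 2 * NT T - (US T).card := by
    have h1 : ∀ i, (if D.st i = i ∧ D.m i = 1 then (1:ℝ) else 2 * D.m i) =
        2 * (mult (i : ℂ) : ℝ) - (if (i : ℂ) ∈ Sc T then (fun _ : ℂ => (1:ℝ)) (i : ℂ) else 0) := by
      intro i
      have h2 := hsim i
      unfold Data.Sim at h2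
      by_cases h3 : (i : ℂ) ∈ Sc T
      · rw [if_pos (h2.2 h3), if_pos h3, (mem_Sc.1 h3).2.2]
        norm_num
      · rw [if_neg (fun h' => h3 (h2.1 h')), if_neg h3, sub_zero]
        rfl
    rw [sum_congr rfl fun i _ => h1 i, sum_sub_distrib, hsum1 (fun _ => 1), ← mul_sum,
      Finset.sum_coe_sort (Zf T) (fun ρ => (mult ρ : ℝ)), card_US hT]
    simp [NT]
  have e2 : ∑ i, ∑ j, (2 * (D.E j i * c' i j).re - ‖c' i j‖ ^ 2) =
      ∑ u ∈ US T, ∑ v ∈ US T, (2 * Real.sinc (Real.pi * (th * (u - v))) * c u v - c u v ^ 2) := by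
    rw [sum_US hT, ← hsum1]
    refine sum_congr rfl fun i _ => ?_
    by_cases h : (i : ℂ) ∈ Sc T
    · rw [if_pos h, sum_US hT, ← hsum1]
      refine sum_congr rfl fun j _ => ?_
      simp only [hc']
      by_cases h3 : (j : ℂ) ∈ Sc T
      · rw [if_pos ⟨h, h3⟩, if_pos h3]
        have h4 : D.E j i = ((Real.sinc (Real.pi * (th * (lev T i - lev T j))) : ℝ) : ℂ) := by
          show Gam T th (conj (j : ℂ) + (i : ℂ) - 1) = _
          have h5 : conj (j : ℂ) + (i : ℂ) - 1 = (((i : ℂ).im - (j : ℂ).im : ℝ) : ℂ) * Complex.I := by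
            have h6 := (mem_Sc.1 h).2.1
            have h7 := (mem_Sc.1 h3).2.1
            apply Complex.ext
            · simp [h6, h7]; norm_num
            · simp; ring
          rw [h5, Gam_im T hth]
          congr 2
          unfold lev
          field_simp
        rw [h4, ← Complex.ofReal_mul, Complex.ofReal_re, Complex.norm_real, Real.norm_eq_abs, sq_abs]
        ring
      · rw [if_neg (fun h' => h3 h'.2), if_neg h3]
        simp
    · rw [if_neg h]
      refine sum_eq_zero fun j _ => ?_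
      simp only [hc']
      rw [if_neg (fun h' => h h'.1)]
      simp
  have e3 : ∑ i, ∑ j, (D.m i : ℂ) * D.m j * (D.E (D.st i) j * D.E (D.st j) i) =
      ∑ ρ ∈ Zf T, ∑ σ ∈ Zf T, (mx ρ : ℂ) * mx σ * Gam T th (ρ - σ) ^ 2 := by
    rw [← Finset.sum_coe_sort (Zf T) (fun ρ => ∑ σ ∈ Zf T, (mx ρ : ℂ) * mx σ * Gam T th (ρ - σ) ^ 2)]
    refine sum_congr rfl fun i _ => ?_
    rw [← Finset.sum_coe_sort (Zf T) (fun σ => (mx (i : ℂ) : ℂ) * mx σ * Gam T th ((i : ℂ) - σ) ^ 2)]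
    refine sum_congr rfl fun j _ => ?_
    have h1 : D.E (D.st i) j = Gam T th ((i : ℂ) - j) := by
      show Gam T th (conj (1 - conj (i : ℂ)) + (j : ℂ) - 1) = _
      rw [← Gam_neg]
      congr 1
      simp only [map_sub, map_one, Complex.conj_conj]
      ring
    have h2 : D.E (D.st j) i = Gam T th ((i : ℂ) - j) := by
      show Gam T th (conj (1 - conj (j : ℂ)) + (i : ℂ) - 1) = _
      congr 1
      simp only [map_sub, map_one, Complex.conj_conj]
      ring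
    have h3 : ∀ k : {ρ : ℂ // ρ ∈ Zf T}, (D.m k : ℂ) = (mx (k : ℂ) : ℂ) := by
      intro k
      show ((mult (k : ℂ) : ℕ) : ℂ) = _
      rw [mult_eq (mem_Zf.1 k.2).1]
      unfold mx
      simp
    rw [h1, h2, h3, h3]
    ring
  rw [e1, e2, e3] at hmain
  exact hmain

end Pool.Agent.Helper6.HM
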