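import Pool.Agent.Helper6.HM.Defs

/-!
# HM-K2: the numerical inequality, two more versions

`(A)`: `1 - psi (sinc (π t)) ≤ .941 phi(.6986, t) + .18 t` and `(B)`: `≤ .98 phi(.7485, t) + .14 t` for all `t > 0`.

Proof. For all `t > 0`: `1 - psi (sinc (π t)) ≤ 1.12 t` (`small54`, nothing to prove for `t ≥ 25 / 28`). For `t ≥ 1.3972`:
`1 - psi (sinc (π t)) ≤ .941 * .6986 + .18 t` (`large54`): nothing to prove for `t ≥ 1.9035`; on `[1.3972, 1.65]` use
`cos w ≥ 1 - w ^ 2 / 2` with `w = π (t - 3/2)`; on `[1.65, 1.9035]` use `sin y ≥ y - y ^ 3 / 6` with `y = π (2 - t)`. Version (B) for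
`t ≥ 1.497` follows from (A) up to `1.9035`.
-/

set_option autoImplicit false

namespace Pool.Agent.Helper6.HM

private lemma psi_nonneg54 (g : ℝ) : 0 ≤ psi g := by
  unfold psi
  split_ifs with h
  · positivity
  · push Not at h
    linarith

private lemma psi_lin54 {g G : ℝ} (h : G ≤ |g|) : 2 * G - 1 / 2 ≤ psi g := by
  unfold psi
  split_ifs with h1
  · have h2 : g ^ 2 = |g| ^ 2 := (sq_abs g).symm
    rw [h2]
    nlinarith [sq_nonneg (|g| - 1 / 2)]
  · linarith

private lemma psi_sq54 {g G : ℝ} (h0 : 0 ≤ G) (h : G ≤ |g|) (h1 : G ≤ 1 / 2) :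
    2 * G ^ 2 ≤ psi g := by
  unfold psi
  split_ifs with h2
  · have h3 : g ^ 2 = |g| ^ 2 := (sq_abs g).symm
    rw [h3]
    nlinarith
  · push Not at h2
    nlinarith

private lemma pi_sq54 : (98696 / 10000 : ℝ) ≤ Real.pi ^ 2 ∧ Real.pi ^ 2 ≤ 98697 / 10000 := by
  have h1 := Real.pi_gt_d6
  have h2 := Real.pi_lt_d6
  constructor <;> nlinarith

/-- `s = t - 3/2` -/
private lemma poly_b54 {s : ℝ} (h1 : -(1028 / 10000) ≤ s) (h2 : s ≤ 15 / 100) :
    (3426174 / 10000000 - 9 / 50 * (s + 3 / 2)) * (98697 / 10000) * (s + 3 / 2) ^ 2 ≤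
      2 * (1 - 98697 / 20000 * s ^ 2) ^ 2 := by
  have h3 : 0 ≤ (s + 1028 / 10000) * (15 / 100 - s) := mul_nonneg (by linarith) (by linarith)
  have h4 : 0 ≤ s + 1028 / 10000 := by linarith
  have h5 : 0 ≤ 15 / 100 - s := by linarith
  nlinarith [mul_nonneg h3 h4, mul_nonneg h3 h5, mul_nonneg h3 h3, sq_nonneg s, sq_nonneg (s ^ 2)]

/-- `r = 1 - t` -/
private lemma poly_c54 {r : ℝ} (h1 : 3 / 28 ≤ r) (h2 : r ≤ 39 / 100) :
    (28 / 25 * r - 3 / 25) * (1 - r) ^ 2 ≤ 2 * r ^ 2 * (1 - 2 * (98697 / 60000) * r ^ 2) := by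
  have h3 : 0 ≤ (r - 3 / 28) * (39 / 100 - r) := mul_nonneg (by linarith) (by linarith)
  have h4 : 0 ≤ (r - 192 / 1000) ^ 2 * (39 / 100 - r) := mul_nonneg (sq_nonneg _) (by linarith)
  have h5 : 0 ≤ (r - 192 / 1000) ^ 2 * (r - 3 / 28) := mul_nonneg (sq_nonneg _) (by linarith)
  have h6 : 0 ≤ (r - 192 / 1000) ^ 2 * ((r - 3 / 28) * (39 / 100 - r)) := mul_nonneg (sq_nonneg _) h3
  nlinarith [sq_nonneg (r - 192 / 1000)]

/-- `r = 2 - t` -/
private lemma poly_d54 {r : ℝ} (h1 : 965 / 10000 ≤ r) (h2 : r ≤ 35 / 100) :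
    (9 / 50 * r - 173826 / 10000000) * (2 - r) ^ 2 ≤ 2 * r ^ 2 * (1 - 2 * (98697 / 60000) * r ^ 2) := by
  have h3 : 0 ≤ (r - 965 / 10000) * (35 / 100 - r) := mul_nonneg (by linarith) (by linarith)
  have h4 : 0 ≤ (r - 17 / 100) ^ 2 * (35 / 100 - r) := mul_nonneg (sq_nonneg _) (by linarith)
  have h5 : 0 ≤ (r - 17 / 100) ^ 2 * (r - 965 / 10000) := mul_nonneg (sq_nonneg _) (by linarith)
  have h6 : 0 ≤ (r - 17 / 100) ^ 2 * ((r - 965 / 10000) * (35 / 100 - r)) := mul_nonneg (sq_nonneg _) h3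
  nlinarith [sq_nonneg (r - 17 / 100)]

private lemma small54 {t : ℝ} (ht : 0 < t) :
    1 - psi (Real.sinc (Real.pi * t)) ≤ 28 / 25 * t := by
  have hpi := Real.pi_pos
  have hpt : 0 < Real.pi * t := mul_pos hpi ht
  have hsinc : Real.sinc (Real.pi * t) = Real.sin (Real.pi * t) / (Real.pi * t) :=
    Real.sinc_of_ne_zero hpt.ne'
  obtain ⟨hP1, hP2⟩ := pi_sq54
  obtain ⟨g, hg⟩ : ∃ g, g = Real.sinc (Real.pi * t) := ⟨_, rfl⟩
  have habs : |g| = |Real.sin (Real.pi * t)| / (Real.pi * t) := by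
    rw [hg, hsinc, abs_div, abs_of_pos hpt]
  rw [← hg]
  have hpsi := psi_nonneg54 g
  by_cases hc1 : 25 / 28 ≤ t
  · linarith
  push Not at hc1
  -- the lower bound for the sine near `π`
  have hy : ∀ r : ℝ, 0 ≤ r → r = 1 - t →
      r * (1 - Real.pi ^ 2 * r ^ 2 / 6) / t ≤ |g| := by
    intro r hr hrt
    have h1 := Real.sin_ge_sub_cube (show 0 ≤ Real.pi * r by positivity)
    have h2 : Real.sin (Real.pi * t) = Real.sin (Real.pi * r) := by
      rw [hrt, mul_sub, mul_one, Real.sin_pi_sub]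
    rw [habs, h2, div_le_div_iff₀ ht hpt]
    have h3 : Real.pi * (r * (1 - Real.pi ^ 2 * r ^ 2 / 6)) ≤ |Real.sin (Real.pi * r)| := by
      refine le_trans (le_of_eq ?_) (h1.trans (le_abs_self _))
      ring
    have h4 := mul_le_mul_of_nonneg_right h3 ht.le
    linarith
  by_cases hc2 : 61 / 100 ≤ t
  · obtain ⟨r, hr⟩ : ∃ r, r = 1 - t := ⟨_, rfl⟩
    have hr1 : 3 / 28 ≤ r := by linarith
    have hr2 : r ≤ 39 / 100 := by linarith
    have hr0 : 0 ≤ r := by linarith
    have hG := hy r hr0 hr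
    have hq0 : Real.pi ^ 2 * r ^ 2 / 6 ≤ 98697 / 60000 * r ^ 2 := by nlinarith [sq_nonneg r]
    have hq2 : 98697 / 60000 * r ^ 2 ≤ 1 := by nlinarith
    have hq1 : 0 ≤ Real.pi ^ 2 * r ^ 2 / 6 := by positivity
    -- the comparison value
    obtain ⟨G, hGd⟩ : ∃ G, G = r * (1 - 98697 / 60000 * r ^ 2) / t := ⟨_, rfl⟩
    have hG0 : 0 ≤ G := by
      rw [hGd]
      apply div_nonneg (mul_nonneg hr0 (by linarith)) ht.le
    have hG1 : G ≤ |g| := by
      refine le_trans ?_ hG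
      rw [hGd]
      apply div_le_div_of_nonneg_right _ ht.le
      apply mul_le_mul_of_nonneg_left _ hr0
      linarith
    have hG2 : G ≤ 1 / 2 := by
      rw [hGd, div_le_iff₀ ht]
      have h1 : t = 1 - r := by linarith
      rw [h1]
      nlinarith [mul_nonneg hr0 (sq_nonneg r), sq_nonneg (r - 39 / 100),
        mul_nonneg hr0 (sq_nonneg (r - 39 / 100))]
    have h5 := psi_sq54 hG0 hG1 hG2
    have h6 : 1 - 28 / 25 * t ≤ 2 * G ^ 2 := by
      rw [hGd, div_pow, mul_div_assoc', le_div_iff₀ (by positivity)]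
      have h7 := poly_c54 hr1 hr2
      have h8 : t = 1 - r := by linarith
      rw [h8]
      have h9 : (1 - 28 / 25 * (1 - r)) * (1 - r) ^ 2 =
          (28 / 25 * r - 3 / 25) * (1 - r) ^ 2 := by ring
      have h10 : 2 * r ^ 2 * (1 - 2 * (98697 / 60000) * r ^ 2) ≤
          2 * (r * (1 - 98697 / 60000 * r ^ 2)) ^ 2 := by
        nlinarith [sq_nonneg (98697 / 60000 * r ^ 3)]
      linarith
    linarith
  push Not at hc2
  by_cases hc3 : 1 / 2 ≤ t
  · obtain ⟨r, hr⟩ : ∃ r, r = 1 - t := ⟨_, rfl⟩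
    have hr1 : 39 / 100 ≤ r := by linarith
    have hr2 : r ≤ 1 / 2 := by linarith
    have hr0 : 0 ≤ r := by linarith
    have h1 := psi_lin54 (hy r hr0 hr)
    have h2 : 1 - 28 / 25 * t ≤
        2 * (r * (1 - Real.pi ^ 2 * r ^ 2 / 6) / t) - 1 / 2 := by
      have h3 : (3 / 2 - 28 / 25 * t) * t ≤ 2 * (r * (1 - Real.pi ^ 2 * r ^ 2 / 6)) := by
        have h4 : Real.pi ^ 2 * r ^ 2 / 6 ≤ 42 / 100 := by nlinarith
        have h5 : t = 1 - r := by linarith
        rw [h5]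
        nlinarith
      have h6 : 3 / 2 - 28 / 25 * t ≤ 2 * (r * (1 - Real.pi ^ 2 * r ^ 2 / 6)) / t := by
        rwa [le_div_iff₀ ht]
      have h7 : 2 * (r * (1 - Real.pi ^ 2 * r ^ 2 / 6)) / t =
          2 * (r * (1 - Real.pi ^ 2 * r ^ 2 / 6) / t) := by ring
      linarith
    linarith
  push Not at hc3
  · have h1 := Real.sin_ge_sub_cube hpt.le
    have h2 : 1 - Real.pi ^ 2 * t ^ 2 / 6 ≤ |g| := by
      rw [habs, le_div_iff₀ hpt]
      refine le_trans (le_of_eq ?_) (h1.trans (le_abs_self _))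
      ring
    have h3 := psi_lin54 h2
    nlinarith [mul_nonneg ht.le (show 0 ≤ 1 / 2 - t by linarith)]

private lemma large54 {t : ℝ} (hge : 13972 / 10000 ≤ t) :
    1 - psi (Real.sinc (Real.pi * t)) ≤ 6573826 / 10000000 + 9 / 50 * t := by
  have ht : 0 < t := by linarith
  have hpi := Real.pi_pos
  have hpt : 0 < Real.pi * t := mul_pos hpi ht
  have hsinc : Real.sinc (Real.pi * t) = Real.sin (Real.pi * t) / (Real.pi * t) :=
    Real.sinc_of_ne_zero hpt.ne'
  obtain ⟨hP1, hP2⟩ := pi_sq54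
  obtain ⟨g, hg⟩ : ∃ g, g = Real.sinc (Real.pi * t) := ⟨_, rfl⟩
  have habs : |g| = |Real.sin (Real.pi * t)| / (Real.pi * t) := by
    rw [hg, hsinc, abs_div, abs_of_pos hpt]
  rw [← hg]
  have hpsi := psi_nonneg54 g
  by_cases ha : 19035 / 10000 ≤ t
  · linarith
  push Not at ha
  by_cases hb : t ≤ 165 / 100
  · obtain ⟨s, hs⟩ : ∃ s, s = t - 3 / 2 := ⟨_, rfl⟩
    have hs1 : -(1028 / 10000) ≤ s := by linarith
    have hs2 : s ≤ 15 / 100 := by linarith
    have hts : t = s + 3 / 2 := by linarith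
    have hcos := Real.one_sub_sq_div_two_le_cos (x := Real.pi * s)
    have hsin : Real.sin (Real.pi * t) = - Real.cos (Real.pi * s) := by
      have h1 : Real.pi * t = Real.pi * s + Real.pi / 2 + Real.pi := by rw [hts]; ring
      rw [h1, Real.sin_add_pi, Real.sin_add_pi_div_two]
    have hs3 : s ^ 2 ≤ 225 / 10000 := by nlinarith
    have hq : 0 ≤ 1 - 98697 / 20000 * s ^ 2 := by nlinarith
    obtain ⟨G, hGd⟩ : ∃ G, G = (1 - 98697 / 20000 * s ^ 2) / (Real.pi * t) := ⟨_, rfl⟩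
    have hG0 : 0 ≤ G := by
      rw [hGd]
      exact div_nonneg hq hpt.le
    have hG1 : G ≤ |g| := by
      rw [hGd, habs, hsin, abs_neg]
      apply div_le_div_of_nonneg_right _ hpt.le
      refine le_trans ?_ (hcos.trans (le_abs_self _))
      have h1 : (Real.pi * s) ^ 2 / 2 = Real.pi ^ 2 * s ^ 2 / 2 := by ring
      rw [h1]
      nlinarith [sq_nonneg s]
    have hG2 : G ≤ 1 / 2 := by
      rw [hGd, div_le_iff₀ hpt]
      have h1 := Real.pi_gt_three
      nlinarith [sq_nonneg s]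
    have h5 := psi_sq54 hG0 hG1 hG2
    have h6 : 3426174 / 10000000 - 9 / 50 * t ≤ 2 * G ^ 2 := by
      rw [hGd, div_pow, mul_div_assoc', le_div_iff₀ (by positivity)]
      have h7 := poly_b54 hs1 hs2
      have h8 : 0 ≤ 3426174 / 10000000 - 9 / 50 * t := by linarith
      have h9 : (3426174 / 10000000 - 9 / 50 * t) * (Real.pi * t) ^ 2 ≤
          (3426174 / 10000000 - 9 / 50 * t) * (98697 / 10000) * t ^ 2 := by
        have h10 : (Real.pi * t) ^ 2 ≤ 98697 / 10000 * t ^ 2 := by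
          rw [mul_pow]
          exact mul_le_mul_of_nonneg_right hP2 (sq_nonneg t)
        have h11 := mul_le_mul_of_nonneg_left h10 h8
        linarith
      rw [hts] at h9 ⊢
      linarith
    linarith
  · push Not at hb
    obtain ⟨r, hr⟩ : ∃ r, r = 2 - t := ⟨_, rfl⟩
    have hr1 : 965 / 10000 ≤ r := by linarith
    have hr2 : r ≤ 35 / 100 := by linarith
    have hr0 : 0 ≤ r := by linarith
    have hG : r * (1 - Real.pi ^ 2 * r ^ 2 / 6) / t ≤ |g| := by
      have h1 := Real.sin_ge_sub_cube (show 0 ≤ Real.pi * r by positivity)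
      have h2 : Real.sin (Real.pi * t) = - Real.sin (Real.pi * r) := by
        have h3 : Real.pi * t = 2 * Real.pi - Real.pi * r := by rw [hr]; ring
        rw [h3, Real.sin_two_pi_sub]
      rw [habs, h2, abs_neg, div_le_div_iff₀ ht hpt]
      have h3 : Real.pi * (r * (1 - Real.pi ^ 2 * r ^ 2 / 6)) ≤ |Real.sin (Real.pi * r)| := by
        refine le_trans (le_of_eq ?_) (h1.trans (le_abs_self _))
        ring
      have h4 := mul_le_mul_of_nonneg_right h3 ht.le
      linarith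
    have hq0 : Real.pi ^ 2 * r ^ 2 / 6 ≤ 98697 / 60000 * r ^ 2 := by nlinarith [sq_nonneg r]
    have hq2 : 98697 / 60000 * r ^ 2 ≤ 1 := by nlinarith
    obtain ⟨G, hGd⟩ : ∃ G, G = r * (1 - 98697 / 60000 * r ^ 2) / t := ⟨_, rfl⟩
    have hG0 : 0 ≤ G := by
      rw [hGd]
      apply div_nonneg (mul_nonneg hr0 (by linarith)) ht.le
    have hG1 : G ≤ |g| := by
      refine le_trans ?_ hG
      rw [hGd]
      apply div_le_div_of_nonneg_right _ ht.le
      apply mul_le_mul_of_nonneg_left _ hr0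
      linarith
    have hG2 : G ≤ 1 / 2 := by
      rw [hGd, div_le_iff₀ ht]
      nlinarith [mul_nonneg hr0 (sq_nonneg r)]
    have h5 := psi_sq54 hG0 hG1 hG2
    have h6 : 3426174 / 10000000 - 9 / 50 * t ≤ 2 * G ^ 2 := by
      rw [hGd, div_pow, mul_div_assoc', le_div_iff₀ (by positivity)]
      have h7 := poly_d54 hr1 hr2
      have h8 : t = 2 - r := by linarith
      rw [h8]
      have h9 : (3426174 / 10000000 - 9 / 50 * (2 - r)) * (2 - r) ^ 2 =
          (9 / 50 * r - 173826 / 10000000) * (2 - r) ^ 2 := by ring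
      have h10 : 2 * r ^ 2 * (1 - 2 * (98697 / 60000) * r ^ 2) ≤
          2 * (r * (1 - 98697 / 60000 * r ^ 2)) ^ 2 := by
        nlinarith [sq_nonneg (98697 / 60000 * r ^ 3)]
      linarith
    linarith

/-- version (A), for windows of length `7/5` -/
theorem key_ineqA {t : ℝ} (ht : 0 < t) :
    1 - psi (Real.sinc (Real.pi * t)) ≤ 941 / 1000 * phi (3493 / 5000) t + 9 / 50 * t := by
  unfold phi
  split_ifs with hcase
  · have := small54 ht
    linarith
  · push Not at hcase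
    have := large54 (show 13972 / 10000 ≤ t by linarith)
    linarith

/-- version (B), for windows of length `3/2` -/
theorem key_ineqB {t : ℝ} (ht : 0 < t) :
    1 - psi (Real.sinc (Real.pi * t)) ≤ 98 / 100 * phi (1497 / 2000) t + 7 / 50 * t := by
  unfold phi
  split_ifs with hcase
  · have := small54 ht
    linarith
  · push Not at hcase
    by_cases ha : 19035 / 10000 ≤ t
    · have := psi_nonneg54 (Real.sinc (Real.pi * t))
      linarith
    · push Not at ha
      have := large54 (show 13972 / 10000 ≤ t by linarith)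
      linarith

end Pool.Agent.Helper6.HM
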