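import Pool.Agent.Helper6.HM.Par
import Pool.Agent.Helper6.HM.Key2

/-!
# HM project: windows of length 7/5 at every position up to `T log T / 2000 π`, constant 1/100, open windows

Weight of width `499/500`; `lam / 2 + mu = .6505` and `.63` for the windows of length `7/5` and `3/2`.
-/

set_option autoImplicit false

open Finset Filter Topology MeasureTheory
open Pool.Agent.Helper57.LH Pool.Agent.Helper57.PC Pool.Agent.Helper57.Zeta Pool.Agent.Helper57.FL

namespace Pool.Agent.Helper6.HM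

/-- Disjoint open windows of length `ℓ` add up. -/
lemma windows_len_open {ι : Type*} (P : Finset ι) (d : ι → ℝ) {K T ℓ : ℝ} (hℓ : 0 < ℓ) (hK : 0 ≤ K)
    (h : ∀ α, 0 ≤ α → α ≤ T → K ≤ ((P.filter (fun p => α < d p ∧ d p < α + ℓ)).card : ℝ))
    {a b : ℝ} (ha : 0 ≤ a) (hab : a + ℓ ≤ b) (hb : b ≤ T) :
    K * ((b - a) / (2 * ℓ)) ≤ ((P.filter (fun p => a < d p ∧ d p < b)).card : ℝ) := by
  classical
  set y := (b - a) / ℓ with hy
  have hy1 : 1 ≤ y := by rw [hy, le_div_iff₀ hℓ]; linarith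
  set k := ⌊y⌋₊ with hk
  have hk1 : (k : ℝ) ≤ y := Nat.floor_le (by linarith)
  have hk2 : y < k + 1 := Nat.lt_floor_add_one y
  have hk3 : 1 ≤ k := Nat.le_floor (by simpa using hy1)
  have hk4 : y / 2 ≤ k := by
    have : (1 : ℝ) ≤ k := by exact_mod_cast hk3
    linarith
  have hyk : ℓ * (k : ℝ) ≤ b - a := by
    have : y * ℓ = b - a := by rw [hy]; field_simp
    nlinarith
  have hdis : Set.PairwiseDisjoint (↑(range k) : Set ℕ)
      (fun j : ℕ => P.filter (fun p => a + ℓ * j < d p ∧ d p < a + ℓ * j + ℓ)) := by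
    intro i _ j _ hij
    rw [Function.onFun, disjoint_left]
    intro p hp hp'
    have h1 := (mem_filter.1 hp).2
    have h2 := (mem_filter.1 hp').2
    rcases lt_or_gt_of_ne hij with h3 | h3
    · have : (i : ℝ) + 1 ≤ j := by exact_mod_cast h3
      nlinarith [h1.2, h2.1]
    · have : (j : ℝ) + 1 ≤ i := by exact_mod_cast h3
      nlinarith [h1.1, h2.2]
  have hsub : (range k).biUnion
      (fun j : ℕ => P.filter (fun p => a + ℓ * j < d p ∧ d p < a + ℓ * j + ℓ)) ⊆
      P.filter (fun p => a < d p ∧ d p < b) := by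
    intro p hp
    obtain ⟨j, hj, hp⟩ := mem_biUnion.1 hp
    have h1 := (mem_filter.1 hp).2
    have hj : (j : ℝ) + 1 ≤ k := by exact_mod_cast mem_range.1 hj
    have hj0 : (0 : ℝ) ≤ ℓ * j := by positivity
    refine mem_filter.2 ⟨(mem_filter.1 hp).1, by linarith [h1.1], ?_⟩
    nlinarith [h1.2]
  calc K * ((b - a) / (2 * ℓ)) = K * (y / 2) := by rw [hy]; field_simp
    _ ≤ K * k := by gcongr
    _ = ∑ _j ∈ range k, K := by rw [sum_const, card_range, nsmul_eq_mul, mul_comm]
    _ ≤ ∑ j ∈ range k, ((P.filter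
        (fun p => a + ℓ * (j : ℝ) < d p ∧ d p < a + ℓ * j + ℓ)).card : ℝ) := by
        apply sum_le_sum
        intro j hj
        have hj : (j : ℝ) + 1 ≤ k := by exact_mod_cast mem_range.1 hj
        have hj0 : (0 : ℝ) ≤ ℓ * j := by positivity
        exact h (a + ℓ * j) (by positivity) (by nlinarith)
    _ = (((range k).biUnion (fun j : ℕ =>
        P.filter (fun p => a + ℓ * j < d p ∧ d p < a + ℓ * j + ℓ))).card : ℝ) := by
        rw [card_biUnion hdis]
        push_cast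
        rfl
    _ ≤ _ := by exact_mod_cast card_le_card hsub

/-- Two window sizes: `7/5` for `b - a < 3/2`, `3/2` for the rest. -/
lemma windows_two_open {ι : Type*} (P : Finset ι) (d : ι → ℝ) {S T : ℝ} (hS : 0 ≤ S)
    (h1 : ∀ α, 0 ≤ α → α ≤ T → 3 / 200 * S ≤ ((P.filter (fun p => α < d p ∧ d p < α + 7 / 5)).card : ℝ))
    (h2 : ∀ α, 0 ≤ α → α ≤ T → 3 / 100 * S ≤ ((P.filter (fun p => α < d p ∧ d p < α + 3 / 2)).card : ℝ))
    {a b : ℝ} (ha : 0 ≤ a) (hab : a + 7 / 5 ≤ b) (hb : b ≤ T) :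
    (b - a) / 100 * S ≤ ((P.filter (fun p => a < d p ∧ d p < b)).card : ℝ) := by
  rcases le_or_gt (a + 3 / 2) b with h | h
  · have := windows_len_open P d (by norm_num : (0 : ℝ) < 3 / 2) (by positivity) h2 ha h hb
    calc (b - a) / 100 * S = 3 / 100 * S * ((b - a) / (2 * (3 / 2))) := by ring
      _ ≤ _ := this
  · have h3 := h1 a ha (by linarith)
    have h4 : ((P.filter (fun p => a < d p ∧ d p < a + 7 / 5)).card : ℝ) ≤
        ((P.filter (fun p => a < d p ∧ d p < b)).card : ℝ) := by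
      have : (P.filter (fun p => a < d p ∧ d p < a + 7 / 5)) ⊆
          (P.filter (fun p => a < d p ∧ d p < b)) := by
        intro p hp
        have := (mem_filter.1 hp)
        exact mem_filter.2 ⟨this.1, this.2.1, by linarith [this.2.2]⟩
      exact_mod_cast card_le_card this
    have h5 : (b - a) / 100 * S ≤ 3 / 200 * S := by
      have : (b - a) / 100 ≤ 3 / 200 := by linarith
      exact mul_le_mul_of_nonneg_right this hS
    linarith

/-- the ordered pairs of simple zeros on the line with normalised difference in `(α, β)` -/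
def PO (T α β : ℝ) : Set (ℂ × ℂ) :=
  {p | (p.1 ∈ zerosUpTo T ∧ p.1.re = 1 / 2 ∧ mult p.1 = 1) ∧ (p.2 ∈ zerosUpTo T ∧ p.2.re = 1 / 2 ∧ mult p.2 = 1) ∧
    (p.1.im - p.2.im) * Real.log T / (2 * Real.pi) ∈ Set.Ioo α β}

open Classical in
lemma PO_eq (T α β : ℝ) : PO T α β = ((Sc T ×ˢ Sc T).filter (fun p => nd T p ∈ Set.Ioo α β) : Finset (ℂ × ℂ)) := by
  ext p
  simp only [PO, Set.mem_ofPred_eq, Finset.coe_filter, Finset.mem_product, mem_Sc, mem_zerosUpTo]
  unfold nd
  tauto

open Classical in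
lemma PO_card {T : ℝ} (hT : 1 < T) (α β : ℝ) :
    (PO T α β).ncard = ((US T ×ˢ US T).filter (fun p => α < p.1 - p.2 ∧ p.1 - p.2 < β)).card := by
  rw [PO_eq, Set.ncard_coe_finset]
  have hnd : ∀ p : ℂ × ℂ, nd T p = lev T p.1 - lev T p.2 := by
    intro p
    unfold nd lev
    ring
  refine Finset.card_bij (fun p _ => (lev T p.1, lev T p.2)) ?_ ?_ ?_
  · intro p hp
    rw [Finset.mem_filter, Finset.mem_product] at hp ⊢
    obtain ⟨⟨h1, h2⟩, h3⟩ := hp
    rw [hnd] at h3
    exact ⟨⟨Finset.mem_image_of_mem _ h1, Finset.mem_image_of_mem _ h2⟩, h3.1, h3.2⟩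
  · intro p hp q hq h
    rw [Finset.mem_filter, Finset.mem_product] at hp hq
    rw [Prod.mk.injEq] at h
    exact Prod.ext (lev_inj hT _ hp.1.1 _ hq.1.1 h.1) (lev_inj hT _ hp.1.2 _ hq.1.2 h.2)
  · intro q hq
    rw [Finset.mem_filter, Finset.mem_product] at hq
    obtain ⟨⟨h1, h2⟩, h3⟩ := hq
    obtain ⟨ρ, hρ, e1⟩ := Finset.mem_image.1 h1
    obtain ⟨σ, hσ, e2⟩ := Finset.mem_image.1 h2
    refine ⟨(ρ, σ), ?_, Prod.ext e1 e2⟩
    rw [Finset.mem_filter, Finset.mem_product]
    refine ⟨⟨hρ, hσ⟩, ?_⟩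
    rw [hnd, e1, e2]
    exact h3

lemma PO_le (T α β : ℝ) : ((PO T α β).ncard : ℝ) ≤ pairCount T α β := by
  classical
  refine le_trans ?_ (PS_le T α β)
  have h1 : PO T α β ⊆ PS T α β := fun p hp => ⟨hp.1, hp.2.1, Set.Ioo_subset_Icc_self hp.2.2⟩
  have h2 : (PS T α β).Finite := by
    rw [PS_eq]
    exact Finset.finite_toSet _
  exact_mod_cast Set.ncard_le_ncard h1 h2

theorem final3 : ∃ T₀ : ℝ, ∀ T : ℝ, T₀ ≤ T → ∀ α β : ℝ, 0 ≤ α → α + 7 / 5 ≤ β →
    β ≤ T * Real.log T / (2 * Real.pi) / 1000 →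
    (β - α) / 100 * (T * Real.log T / (2 * Real.pi)) ≤ (PO T α β).ncard ∧ ((PO T α β).ncard : ℝ) ≤ pairCount T α β := by
  classical
  have h1 := windows_par (th := 499 / 500) (H := 7 / 10) (lam := 941 / 1000) (mu := 9 / 50) (g := 3 / 200) (κ := 1 / 1000)
    (by norm_num) (by norm_num) (by norm_num) (by norm_num) (by norm_num) (by norm_num)
    (fun t ht => by
      have h := key_ineqA ht
      rw [show (499 / 500 * (7 / 10) : ℝ) = 3493 / 5000 by norm_num]
      exact h) (by norm_num)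
  have h2 := windows_par (th := 499 / 500) (H := 3 / 4) (lam := 98 / 100) (mu := 7 / 50) (g := 3 / 100) (κ := 1 / 1000)
    (by norm_num) (by norm_num) (by norm_num) (by norm_num) (by norm_num) (by norm_num)
    (fun t ht => by
      have h := key_ineqB ht
      rw [show (499 / 500 * (3 / 4) : ℝ) = 1497 / 2000 by norm_num]
      exact h) (by norm_num)
  obtain ⟨T₀, h⟩ := eventually_atTop.1 (h1.and (h2.and (eventually_ge_atTop (2:ℝ))))
  refine ⟨T₀, fun T hT α β hα hαβ hβ => ⟨?_, PO_le T α β⟩⟩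
  obtain ⟨g1, g2, hT2⟩ := h T hT
  have hT1 : 1 < T := by linarith
  have hS : 0 < SN T := SN_pos hT1
  have h3 := windows_two_open (US T ×ˢ US T) (fun p => p.1 - p.2) (S := SN T)
    (T := 1 / 1000 * SN T) hS.le (fun a ha haT => by
      have := g1 a ha haT
      rw [show (2 * (7 / 10) : ℝ) = 7 / 5 by norm_num] at this
      convert this using 5) (fun a ha haT => by
      have := g2 a ha haT
      rw [show (2 * (3 / 4) : ℝ) = 3 / 2 by norm_num] at this
      convert this using 5) hα hαβ (by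
        unfold SN
        linarith)
  rw [PO_card hT1]
  refine le_trans (le_of_eq ?_) (h3.trans (le_of_eq ?_))
  · unfold SN
    ring
  · congr 2

end Pool.Agent.Helper6.HM
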