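import Pool.Agent.Helper6.HM.Polar

/-!
# HM project: the test matrix and the finite form of the main inequality
-/

set_option autoImplicit false

open Matrix Finset
open scoped ComplexOrder ComplexConjugate

namespace Pool.Agent.Helper6.HM

variable {ι : Type*} [Fintype ι] [DecidableEq ι]

/-- a diagonally dominant Hermitian matrix is positive semidefinite -/
lemma diagdom_psd {C : Matrix ι ι ℂ} (hC : C.IsHermitian) (h : ∀ i, ∑ j ∈ univ.erase i, ‖C i j‖ ≤ (C i i).re) :
    C.PosSemidef := by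
  refine PosSemidef.of_dotProduct_mulVec_nonneg hC ?_
  intro x
  have hre : (star x ⬝ᵥ (C *ᵥ x)).im = 0 := by
    have := hC.im_star_dotProduct_mulVec_self x
    simpa using this
  rw [Complex.le_def]
  refine ⟨?_, by rw [hre, Complex.zero_im]⟩
  rw [Complex.zero_re]
  have e1 : (star x ⬝ᵥ (C *ᵥ x)).re = ∑ i, ∑ j, (conj (x i) * (C i j * x j)).re := by
    simp only [dotProduct, mulVec, Pi.star_apply, RCLike.star_def, mul_sum, Complex.re_sum]
  rw [e1]
  have hsym : ∀ i j, ‖C j i‖ = ‖C i j‖ := by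
    intro i j
    rw [← hC.apply i j, RCLike.star_def, RCLike.norm_conj]
  -- lower bound of each row
  have h1 : ∀ i, ∑ j ∈ univ.erase i, ‖C i j‖ * (‖x i‖ ^ 2 / 2 - ‖x j‖ ^ 2 / 2) ≤ ∑ j, (conj (x i) * (C i j * x j)).re := by
    intro i
    rw [← Finset.add_sum_erase univ _ (mem_univ i)]
    have h2 : (conj (x i) * (C i i * x i)).re = (C i i).re * ‖x i‖ ^ 2 := by
      have h3 : conj (x i) * (C i i * x i) = C i i * ((‖x i‖ ^ 2 : ℝ) : ℂ) := by
        rw [Complex.ofReal_pow, ← Complex.conj_mul']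
        ring
      rw [h3, Complex.re_mul_ofReal]
    rw [h2]
    have h4 : ∑ j ∈ univ.erase i, ‖C i j‖ * ‖x i‖ ^ 2 ≤ (C i i).re * ‖x i‖ ^ 2 := by
      rw [← sum_mul]
      exact mul_le_mul_of_nonneg_right (h i) (by positivity)
    have h5 : ∑ j ∈ univ.erase i, ‖C i j‖ * (‖x i‖ ^ 2 / 2 - ‖x j‖ ^ 2 / 2) ≤ ∑ j ∈ univ.erase i, ‖C i j‖ * ‖x i‖ ^ 2 +
        ∑ j ∈ univ.erase i, (conj (x i) * (C i j * x j)).re := by
      rw [← sum_add_distrib]
      refine sum_le_sum fun j _ => ?_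
      have h6 := (abs_le.1 (Complex.abs_re_le_norm (conj (x i) * (C i j * x j)))).1
      rw [norm_mul, norm_mul, RCLike.norm_conj] at h6
      have h7 : 0 ≤ ‖C i j‖ * (‖x i‖ - ‖x j‖) ^ 2 := by positivity
      nlinarith
    linarith
  refine le_trans ?_ (sum_le_sum fun i _ => h1 i)
  have h8 : ∑ i, ∑ j ∈ univ.erase i, ‖C i j‖ * (‖x i‖ ^ 2 / 2 - ‖x j‖ ^ 2 / 2) =
      ∑ i, ∑ j, ‖C i j‖ * (‖x i‖ ^ 2 / 2 - ‖x j‖ ^ 2 / 2) := by
    refine sum_congr rfl fun i _ => ?_
    rw [← Finset.add_sum_erase univ (fun j => ‖C i j‖ * (‖x i‖ ^ 2 / 2 - ‖x j‖ ^ 2 / 2)) (mem_univ i)]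
    simp
  rw [h8]
  have h9 : ∑ i, ∑ j, ‖C i j‖ * (‖x i‖ ^ 2 / 2 - ‖x j‖ ^ 2 / 2) = - ∑ i, ∑ j, ‖C i j‖ * (‖x i‖ ^ 2 / 2 - ‖x j‖ ^ 2 / 2) := by
    conv_lhs => rw [sum_comm]
    rw [← sum_neg_distrib]
    refine sum_congr rfl fun i _ => ?_
    rw [← sum_neg_distrib]
    refine sum_congr rfl fun j _ => ?_
    rw [hsym]
    ring
  linarith

/-- the data of the zeros -/
structure Data (ι : Type*) [Fintype ι] [DecidableEq ι] where
  E : Matrix ι ι ℂ
  hE : E.PosSemidef
  st : ι → ι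
  hst : ∀ i, st (st i) = i
  hE1 : ∀ i, E i (st i) = 1
  m : ι → ℕ
  hm : ∀ i, 1 ≤ m i
  hms : ∀ i, m (st i) = m i

namespace Data

variable (D : Data ι)

/-- simple and on the line -/
def Sim (i : ι) : Prop := D.st i = i ∧ D.m i = 1

noncomputable def α (i : ι) : ℝ := if D.st i = i then Real.sqrt (D.m i) else Real.sqrt (D.m i) / 2
noncomputable def β (i : ι) : ℝ := if D.st i = i then 0 else Real.sqrt (D.m i) / 2
noncomputable def dd (i : ι) : ℝ := if D.st i = i ∧ 2 ≤ D.m i then 2 else 1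

/-- the test matrix -/
noncomputable def T (c : ι → ι → ℂ) : Matrix ι ι ℂ :=
  Matrix.of fun i j => (if j = i then (D.dd i : ℂ) else 0) + (if j = D.st i ∧ D.st i ≠ i then 1 else 0) + c i j

/-- admissible off-diagonal part of the test matrix -/
structure Adm (c : ι → ι → ℂ) : Prop where
  herm : ∀ i j, c j i = conj (c i j)
  supp : ∀ i j, c i j ≠ 0 → i ≠ j ∧ D.Sim i
  row : ∀ i, ∑ j, ‖c i j‖ ≤ 1

variable {D} {c : ι → ι → ℂ}

lemma T_apply (i j : ι) : D.T c i j =
    (if j = i then (D.dd i : ℂ) else 0) + (if j = D.st i ∧ D.st i ≠ i then 1 else 0) + c i j := rfl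

lemma Adm.diag (h : D.Adm c) (i : ι) : c i i = 0 := by
  by_contra h0
  exact (h.supp i i h0).1 rfl

lemma Adm.not_sim (h : D.Adm c) {i : ι} (hi : ¬ D.Sim i) (j : ι) : c i j = 0 := by
  by_contra h0
  exact hi (h.supp i j h0).2

lemma Adm.sim_right (h : D.Adm c) {i j : ι} (h0 : c i j ≠ 0) : D.Sim j := by
  refine (h.supp j i ?_).2
  rw [h.herm]
  exact (map_ne_zero _).2 h0

lemma st_ne {i : ι} (h : D.st i ≠ i) : D.st (D.st i) ≠ D.st i := by
  rw [D.hst]
  exact fun e => h e.symm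

lemma T_herm (h : D.Adm c) : (D.T c).IsHermitian := by
  ext i j
  rw [conjTranspose_apply, T_apply, T_apply, star_add, star_add]
  congr 1
  · congr 1
    · by_cases hij : i = j
      · subst hij; simp
      · simp [hij, Ne.symm hij]
    · by_cases h1 : i = D.st j ∧ D.st j ≠ j
      · obtain ⟨h1, h2⟩ := h1
        have h3 : D.st i = j := by rw [h1, D.hst]
        rw [if_pos ⟨h1, h2⟩, if_pos ⟨h3.symm, by rw [h3, h1]; exact fun e => h2 e.symm⟩]
        simp
      · have h5 : ¬ (j = D.st i ∧ D.st i ≠ i) := by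
          rintro ⟨h1', h2'⟩
          have h3 : D.st j = i := by rw [h1', D.hst]
          exact h1 ⟨h3.symm, by rw [h3, h1']; exact fun e => h2' e.symm⟩
        rw [if_neg h1, if_neg h5]
        simp
  · rw [h.herm i j]
    simp

/-- off-diagonal row sums -/
lemma T_row (_h : D.Adm c) (i : ι) : ∑ j ∈ univ.erase i, ‖D.T c i j‖ ≤ (if D.st i ≠ i then 1 else 0) + ∑ j, ‖c i j‖ := by
  have h1 : ∀ j ∈ univ.erase i, ‖D.T c i j‖ ≤ (if j = D.st i then (if D.st i ≠ i then (1:ℝ) else 0) else 0) + ‖c i j‖ := by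
    intro j hj
    rw [T_apply, if_neg (Finset.ne_of_mem_erase hj), zero_add]
    refine (norm_add_le _ _).trans ?_
    gcongr
    by_cases h2 : j = D.st i
    · by_cases h3 : D.st i ≠ i
      · simp [h2, h3]
      · simp [h3]
    · simp [h2]
  refine (sum_le_sum h1).trans ?_
  rw [sum_add_distrib]
  refine add_le_add ?_ ?_
  · have h4 : ∑ j ∈ univ.erase i, (if j = D.st i then (if D.st i ≠ i then (1:ℝ) else 0) else 0) ≤
        ∑ j, (if j = D.st i then (if D.st i ≠ i then (1:ℝ) else 0) else 0) := by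
      refine sum_le_sum_of_subset_of_nonneg (erase_subset _ _) fun j _ _ => ?_
      split_ifs <;> norm_num
    refine h4.trans (le_of_eq ?_)
    rw [Finset.sum_ite_eq' univ (D.st i)]
    simp
  · exact sum_le_sum_of_subset_of_nonneg (erase_subset _ _) fun j _ _ => norm_nonneg _

lemma row_le (h : D.Adm c) (i : ι) : (if D.st i ≠ i then (1:ℝ) else 0) + ∑ j, ‖c i j‖ ≤ D.dd i ∧
    (if D.st i ≠ i then (1:ℝ) else 0) + ∑ j, ‖c i j‖ ≤ 2 - D.dd i := by
  unfold dd
  by_cases h1 : D.st i = i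
  · rw [if_neg (fun h' => h' h1), zero_add]
    by_cases h2 : 2 ≤ D.m i
    · have h3 : ¬ D.Sim i := fun h' => by have := h'.2; omega
      have h4 : ∑ j, ‖c i j‖ = 0 := sum_eq_zero fun j _ => by rw [h.not_sim h3, norm_zero]
      rw [h4, if_pos ⟨h1, h2⟩]
      norm_num
    · rw [if_neg (fun h' => h2 h'.2)]
      have := h.row i
      constructor <;> linarith
  · have h3 : ¬ D.Sim i := fun h' => h1 h'.1
    have h4 : ∑ j, ‖c i j‖ = 0 := sum_eq_zero fun j _ => by rw [h.not_sim h3, norm_zero]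
    rw [h4, if_pos h1, if_neg (fun h' => h1 h'.1)]
    norm_num

lemma T_diag (h : D.Adm c) (i : ι) : D.T c i i = (D.dd i : ℂ) := by
  rw [T_apply, h.diag, if_pos rfl, if_neg (fun h' => h'.2 h'.1.symm)]
  ring

lemma T_psd (h : D.Adm c) : (D.T c).PosSemidef := by
  refine diagdom_psd (T_herm h) fun i => ?_
  rw [T_diag h, Complex.ofReal_re]
  exact (T_row h i).trans (row_le h i).1

lemma T_two (h : D.Adm c) : ((2:ℂ) • 1 - D.T c).PosSemidef := by
  refine diagdom_psd ?_ fun i => ?_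
  · refine IsHermitian.sub ?_ (T_herm h)
    ext i j
    rw [conjTranspose_apply, Matrix.smul_apply, Matrix.smul_apply, Matrix.one_apply, Matrix.one_apply]
    by_cases hij : i = j
    · subst hij; simp
    · simp [hij, Ne.symm hij]
  · have e1 : ∑ j ∈ univ.erase i, ‖((2:ℂ) • 1 - D.T c) i j‖ = ∑ j ∈ univ.erase i, ‖D.T c i j‖ := by
      refine sum_congr rfl fun j hj => ?_
      rw [Matrix.sub_apply, Matrix.smul_apply, Matrix.one_apply, if_neg (Finset.ne_of_mem_erase hj).symm, smul_zero,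
        zero_sub, norm_neg]
    rw [e1, Matrix.sub_apply, Matrix.smul_apply, Matrix.one_apply_eq, T_diag h]
    have e2 : ((2:ℂ) • (1:ℂ) - (D.dd i : ℂ)).re = 2 - D.dd i := by simp
    rw [e2]
    exact (T_row h i).trans (row_le h i).2

lemma T_sq (h : D.Adm c) : (D.T c * D.T c).trace.re =
    ∑ i, (D.dd i ^ 2 + (if D.st i ≠ i then 1 else 0) + ∑ j, ‖c i j‖ ^ 2) := by
  have hh := T_herm h
  rw [Matrix.trace, Complex.re_sum]
  refine sum_congr rfl fun i _ => ?_
  rw [diag_apply, Matrix.mul_apply, Complex.re_sum]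
  have h1 : ∀ j, (D.T c i j * D.T c j i).re = (if j = i then D.dd i ^ 2 else 0) +
      (if j = D.st i then (if D.st i ≠ i then 1 else 0) else 0) + ‖c i j‖ ^ 2 := by
    intro j
    have h2 : D.T c i j * D.T c j i = ((‖D.T c i j‖ ^ 2 : ℝ) : ℂ) := by
      rw [← hh.apply j i, RCLike.star_def, Complex.mul_conj']
      push_cast
      ring
    rw [h2, Complex.ofReal_re]
    by_cases h3 : j = i
    · subst h3
      rw [T_diag h, h.diag, if_pos rfl, norm_zero, Complex.norm_real, Real.norm_eq_abs, sq_abs]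
      by_cases h4 : j = D.st j
      · rw [if_pos h4, if_neg (fun h' => h' h4.symm)]
        ring
      · rw [if_neg h4]
        ring
    · rw [if_neg h3]
      by_cases h4 : j = D.st i
      · rw [if_pos h4]
        have h5 : D.st i ≠ i := by rw [← h4]; exact h3
        have h6 : ¬ D.Sim i := fun h' => h5 h'.1
        rw [if_pos h5, T_apply, if_neg h3, if_pos ⟨h4, h5⟩, h.not_sim h6]
        simp
      · rw [if_neg h4, T_apply, if_neg h3, if_neg (fun h' => h4 h'.1)]
        simp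
  simp only [h1, sum_add_distrib]
  rw [Finset.sum_ite_eq' univ i, Finset.sum_ite_eq' univ (D.st i)]
  simp

end Data

end Pool.Agent.Helper6.HM
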