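import Mathlib

/-!
# HM project (windows of length 7/5 without RH): elementary definitions
-/

set_option autoImplicit false

namespace Pool.Agent.Helper6.HM

/-- gain of a pair with inner product `g` in the tridiagonal test matrix -/
noncomputable def psi (g : ℝ) : ℝ := if |g| ≤ 1 / 2 then 2 * g ^ 2 else 2 * |g| - 1 / 2

/-- the room taken by a gap `t` when the other set keeps distance `H` -/
noncomputable def phi (H t : ℝ) : ℝ := if t < 2 * H then t else H

end Pool.Agent.Helper6.HM
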