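import Pool.Agent.Helper99.HZ.D
import Pool.Agent.Helper49.HM.WinF
import Pool.Agent.Helper6.HM.Zeros

/-!
# HM project: windows of length 7/5, final assembly
-/

set_option autoImplicit false

open Finset Filter Topology MeasureTheory
open scoped ComplexConjugate
open Pool.Agent.Helper57.LH Pool.Agent.Helper57.PC Pool.Agent.Helper57.Zeta Pool.Agent.Helper57.FL

namespace Pool.Agent.Helper6.HM

lemma Gam_eq (T th : ℝ) (w : ℂ) : Gam T th w = Pool.Agent.Helper99.HZ.Gam T th w := by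
  unfold Gam Pool.Agent.Helper99.HZ.Gam
  rw [intervalIntegral.integral_const_mul]
  congr 1
  push_cast
  rw [one_div]

lemma US_range {T : ℝ} (hT : 1 < T) : ∀ u ∈ US T, 0 ≤ u ∧ u ≤ SN T := by
  intro u hu
  unfold US at hu
  obtain ⟨ρ, hρ, rfl⟩ := Finset.mem_image.1 hu
  have h1 := (mem_Zf.1 (mem_Sc.1 hρ).1).2
  have hL : 0 < Real.log T := Real.log_pos hT
  have hpi := Real.pi_pos
  unfold lev SN
  constructor
  · have := h1.1
    positivity
  · gcongr
    exact h1.2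

open Classical in
/-- every open window of length `7/5` contains a positive proportion of pairs -/
theorem windows_core : ∃ T₀ : ℝ, ∀ T : ℝ, T₀ ≤ T → ∀ α : ℝ, 0 ≤ α → α ≤ T →
    14 / 5 / 220 * SN T ≤ (((US T ×ˢ US T).filter (fun p => α < p.1 - p.2 ∧ p.1 - p.2 < α + 7 / 5)).card : ℝ) := by
  have hth : (0:ℝ) < 199 / 200 := by norm_num
  obtain ⟨T₁, hT₁⟩ := NT_lower (1 / 20000) (by norm_num)
  have h1 := Pool.Agent.Helper99.HZ.fejer_limit (th := 199 / 200) hth (by norm_num) (ε := 1 / 20000) (by norm_num)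
  rw [← eventually_atTop]
  filter_upwards [h1, eventually_ge_atTop T₁, eventually_ge_atTop (3:ℝ),
    Real.tendsto_log_atTop.eventually_ge_atTop 600000] with T h2 h3 h4 h5 α hα hαT
  have hT1 : 1 < T := by linarith
  have hS : 0 < SN T := SN_pos hT1
  obtain ⟨c, c1, c2, c3, c4⟩ := Pool.Agent.Helper49.HM.window_comb (US T) (Λ := SN T) (α := α) hS.le hα (US_range hT1)
  have h6 := zeros_ineq (T := T) (th := 199 / 200) hT1 hth c1 c2 c3
  have h7 : (∑ ρ ∈ Zf T, ∑ σ ∈ Zf T, (mx ρ : ℂ) * mx σ * Gam T (199 / 200) (ρ - σ) ^ 2).re =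
      SN T * ∫ x, Pool.Agent.Helper99.HZ.fej (199 / 200) x * ff T x := by
    simp only [Gam_eq]
    rw [Pool.Agent.Helper99.HZ.trace_id hT1 hth, Complex.ofReal_re]
    rfl
  rw [h7] at h6
  have h8 := hT₁ T h3
  have h9 : SN T * ∫ x, Pool.Agent.Helper99.HZ.fej (199 / 200) x * ff T x ≤
      SN T * (1 / (199 / 200) + 199 / 200 / 3 + 1 / 20000) := mul_le_mul_of_nonneg_left h2 hS.le
  have h10 : (1 - 1 / 20000) * SN T ≤ NT T := h8
  -- `T` is small against `SN T`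
  have h11 : 60000 * T ≤ SN T := by
    unfold SN
    rw [le_div_iff₀ (by have := Real.pi_pos; positivity)]
    have hpi := Real.pi_lt_four
    have hT0 : 0 < T := by linarith
    nlinarith [mul_nonneg hT0.le (by linarith : (0:ℝ) ≤ Real.log T - 600000), mul_pos hT0 (by linarith : (0:ℝ) < 4 - Real.pi)]
  set Pc : ℝ := (((US T ×ˢ US T).filter (fun p => α < p.1 - p.2 ∧ p.1 - p.2 < α + 7 / 5)).card : ℝ) with hPc
  have h12 : (US T).card - Pc - 199 / 200 * (1307 / 2000) * (SN T + α + 7 / 10) - 1 ≤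
      ∑ u ∈ US T, ∑ v ∈ US T, (2 * Real.sinc (Real.pi * (199 / 200 * (u - v))) * c u v - c u v ^ 2) := by
    rw [hPc]
    convert c4 using 6
  linarith

/-- the ordered pairs of simple zeros on the line with normalised difference in `[α, β]` -/
def PS (T α β : ℝ) : Set (ℂ × ℂ) :=
  {p | (p.1 ∈ zerosUpTo T ∧ p.1.re = 1 / 2 ∧ mult p.1 = 1) ∧ (p.2 ∈ zerosUpTo T ∧ p.2.re = 1 / 2 ∧ mult p.2 = 1) ∧
    (p.1.im - p.2.im) * Real.log T / (2 * Real.pi) ∈ Set.Icc α β}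

lemma mem_zerosUpTo {T : ℝ} {ρ : ℂ} : ρ ∈ zerosUpTo T ↔ ρ ∈ Zf T := by
  rw [mem_Zf]
  rfl

open Classical in
lemma PS_eq (T α β : ℝ) : PS T α β = ((Sc T ×ˢ Sc T).filter (fun p => nd T p ∈ Set.Icc α β) : Finset (ℂ × ℂ)) := by
  ext p
  simp only [PS, Set.mem_setOf_eq, Finset.coe_filter, Finset.mem_product, mem_Sc, mem_zerosUpTo]
  unfold nd
  tauto

open Classical in
lemma PS_card {T : ℝ} (hT : 1 < T) (α β : ℝ) :
    (PS T α β).ncard = ((US T ×ˢ US T).filter (fun p => α ≤ p.1 - p.2 ∧ p.1 - p.2 ≤ β)).card := by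
  rw [PS_eq, Set.ncard_coe_finset]
  have hnd : ∀ p : ℂ × ℂ, nd T p = lev T p.1 - lev T p.2 := by
    intro p
    unfold nd lev
    ring
  refine Finset.card_bij (fun p _ => (lev T p.1, lev T p.2)) ?_ ?_ ?_
  · intro p hp
    rw [Finset.mem_filter, Finset.mem_product] at hp ⊢
    obtain ⟨⟨h1, h2⟩, h3⟩ := hp
    rw [hnd] at h3
    exact ⟨⟨Finset.mem_image_of_mem _ h1, Finset.mem_image_of_mem _ h2⟩, h3.1, h3.2⟩
  · intro p hp q hq h
    rw [Finset.mem_filter, Finset.mem_product] at hp hq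
    rw [Prod.mk.injEq] at h
    exact Prod.ext (lev_inj hT _ hp.1.1 _ hq.1.1 h.1) (lev_inj hT _ hp.1.2 _ hq.1.2 h.2)
  · intro q hq
    rw [Finset.mem_filter, Finset.mem_product] at hq
    obtain ⟨⟨h1, h2⟩, h3⟩ := hq
    obtain ⟨ρ, hρ, e1⟩ := Finset.mem_image.1 h1
    obtain ⟨σ, hσ, e2⟩ := Finset.mem_image.1 h2
    refine ⟨(ρ, σ), ?_, Prod.ext e1 e2⟩
    rw [Finset.mem_filter, Finset.mem_product]
    refine ⟨⟨hρ, hσ⟩, ?_⟩
    rw [hnd, e1, e2]
    exact h3

open Classical in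
lemma PS_le (T α β : ℝ) : ((PS T α β).ncard : ℝ) ≤ pairCount T α β := by
  rw [PS_eq, Set.ncard_coe_finset, pairCount_eq]
  rw [Finset.card_filter, Nat.cast_sum]
  have hsub : Sc T ×ˢ Sc T ⊆ Zf T ×ˢ Zf T := by
    intro p hp
    rw [Finset.mem_product] at hp ⊢
    exact ⟨(mem_Sc.1 hp.1).1, (mem_Sc.1 hp.2).1⟩
  refine le_trans ?_ (Finset.sum_le_sum_of_subset_of_nonneg hsub ?_)
  · refine Finset.sum_le_sum fun p hp => ?_
    rw [Finset.mem_product] at hp
    rw [(mem_Sc.1 hp.1).2.2, (mem_Sc.1 hp.2).2.2]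
    split_ifs <;> norm_num
  · intro p _ _
    split_ifs
    · positivity
    · exact le_rfl

theorem final : ∃ T₀ : ℝ, ∀ T : ℝ, T₀ ≤ T → ∀ α β : ℝ, 0 ≤ α → α + 7 / 5 ≤ β → β ≤ T →
    (β - α) / 220 * (T * Real.log T / (2 * Real.pi)) ≤ (PS T α β).ncard ∧ ((PS T α β).ncard : ℝ) ≤ pairCount T α β := by
  classical
  obtain ⟨T₀, h⟩ := windows_core
  refine ⟨max T₀ 2, fun T hT α β hα hαβ hβ => ⟨?_, PS_le T α β⟩⟩
  have hT1 : 1 < T := by linarith [le_max_right T₀ 2]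
  have hT2 : T₀ ≤ T := (le_max_left _ _).trans hT
  have hS : 0 < SN T := SN_pos hT1
  have h1 := Pool.Agent.Helper49.HM.windows_to_interval (US T ×ˢ US T) (fun p => p.1 - p.2) (K := 14 / 5 / 220 * SN T)
    (T := T) (by positivity) (fun a ha haT => by
      have := h T hT2 a ha haT
      convert this using 5) hα hαβ hβ
  rw [PS_card hT1]
  refine le_trans (le_of_eq ?_) (h1.trans (le_of_eq ?_))
  · unfold SN
    ring
  · congr 2

end Pool.Agent.Helper6.HM
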