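import Pool.Agent.Helper49.HM.WinF2
import Pool.Agent.Helper6.HM.Final

/-!
# HM project: windows with parameters

`windows_par`: the count of pairs in every open window of length `2 H`, at all positions up to `κ T log T / 2π`,
for a weight of width `th`, if the elementary inequality holds with the constants `lam`, `mu`.
-/

set_option autoImplicit false

open Finset Filter Topology MeasureTheory
open scoped ComplexConjugate
open Pool.Agent.Helper57.LH Pool.Agent.Helper57.PC Pool.Agent.Helper57.Zeta Pool.Agent.Helper57.FL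

namespace Pool.Agent.Helper6.HM

lemma SN_ge {T : ℝ} (hT : 3 ≤ T) : T / 10 ≤ SN T := by
  unfold SN
  have h1 : 1 ≤ Real.log T := by
    rw [Real.le_log_iff_exp_le (by linarith)]
    have := Real.exp_one_lt_d9
    linarith
  have hpi := Real.pi_pos
  have hpi4 := Real.pi_lt_four
  rw [div_le_div_iff₀ (by norm_num) (by positivity)]
  have h2 : T * 1 ≤ T * Real.log T := mul_le_mul_of_nonneg_left h1 (by linarith)
  nlinarith

open Classical in
theorem windows_par {th H lam mu g κ : ℝ} (hth : 0 < th) (hth1 : th < 1) (hH : 0 < H) (hlam : 0 ≤ lam) (hmu : 0 ≤ mu)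
    (hκ : 0 ≤ κ) (hK : ∀ t : ℝ, 0 < t → 1 - psi (Real.sinc (Real.pi * t)) ≤ lam * phi (th * H) t + mu * t)
    (hg : g + th * (lam / 2 + mu) * (1 + κ) < 2 - 1 / th - th / 3) :
    ∀ᶠ T : ℝ in atTop, ∀ α : ℝ, 0 ≤ α → α ≤ κ * SN T →
      g * SN T ≤ (((US T ×ˢ US T).filter (fun p => α < p.1 - p.2 ∧ p.1 - p.2 < α + 2 * H)).card : ℝ) := by
  set δ : ℝ := 2 - 1 / th - th / 3 - (g + th * (lam / 2 + mu) * (1 + κ)) with hδ
  have hδ0 : 0 < δ := by rw [hδ]; linarith
  obtain ⟨T₁, hT₁⟩ := NT_lower (δ / 4) (by linarith)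
  have h1 := Pool.Agent.Helper99.HZ.fejer_limit (th := th) hth hth1 (ε := δ / 4) (by linarith)
  set A : ℝ := th * (lam / 2 + mu) * H + 1 with hA
  have hA0 : 0 < A := by rw [hA]; positivity
  filter_upwards [h1, eventually_ge_atTop T₁, eventually_ge_atTop (3:ℝ), eventually_ge_atTop (10 * (A / (δ / 4)))]
    with T h2 h3 h4 h5 α hα hαT
  have hT1 : 1 < T := by linarith
  have hS : 0 < SN T := SN_pos hT1
  obtain ⟨c, c1, c2, c3, c4⟩ := Pool.Agent.Helper49.HM.window_comb' hH hth hlam hmu hK (US T) (Λ := SN T) (α := α) hS.le hα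
    (US_range hT1)
  have h6 := zeros_ineq (T := T) (th := th) hT1 hth c1 c2 c3
  have h7 : (∑ ρ ∈ Zf T, ∑ σ ∈ Zf T, (mx ρ : ℂ) * mx σ * Gam T th (ρ - σ) ^ 2).re =
      SN T * ∫ x, Pool.Agent.Helper99.HZ.fej th x * ff T x := by
    simp only [Gam_eq]
    rw [Pool.Agent.Helper99.HZ.trace_id hT1 hth, Complex.ofReal_re]
    rfl
  rw [h7] at h6
  have h8 := hT₁ T h3
  have h9 : SN T * ∫ x, Pool.Agent.Helper99.HZ.fej th x * ff T x ≤
      SN T * (1 / th + th / 3 + δ / 4) := mul_le_mul_of_nonneg_left h2 hS.le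
  have h10 : (1 - δ / 4) * SN T ≤ NT T := h8
  have h11 : A ≤ δ / 4 * SN T := by
    have h12 := SN_ge h4
    have h13 : A / (δ / 4) ≤ SN T := by linarith
    rw [div_le_iff₀ (by linarith)] at h13
    linarith
  set Pc : ℝ := (((US T ×ˢ US T).filter (fun p => α < p.1 - p.2 ∧ p.1 - p.2 < α + 2 * H)).card : ℝ) with hPc
  have h12 : (US T).card - Pc - th * (lam / 2 + mu) * (SN T + α + H) - 1 ≤
      ∑ u ∈ US T, ∑ v ∈ US T, (2 * Real.sinc (Real.pi * (th * (u - v))) * c u v - c u v ^ 2) := by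
    rw [hPc]
    convert c4 using 6
  have h13 : th * (lam / 2 + mu) * (SN T + α + H) ≤ th * (lam / 2 + mu) * (1 + κ) * SN T + (A - 1) := by
    have h14 : th * (lam / 2 + mu) * α ≤ th * (lam / 2 + mu) * (κ * SN T) :=
      mul_le_mul_of_nonneg_left hαT (by positivity)
    rw [hA]
    linarith
  have h15 : (2 - 1 / th - th / 3) * SN T = δ * SN T + (g + th * (lam / 2 + mu) * (1 + κ)) * SN T := by
    rw [hδ]; ring
  linarith

end Pool.Agent.Helper6.HM
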