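import Mathlib

/-!
# HM project: the Hermitian form of the zeros, matrix part

`polar`: a contraction `U` with `Uᴴ V Vᴴ U = Vᴴ V`. `transfer`: test operators on the frame side give test operators on
the space side. `trace_lower`: lower bound for `Tr B²`, `B = V Vᴴ - W Wᴴ`.
-/

set_option autoImplicit false

open Matrix
open scoped ComplexOrder

namespace Pool.Agent.Helper6.HM

variable {ι κ μ : Type*} [Fintype ι] [DecidableEq ι] [Fintype κ] [DecidableEq κ] [Fintype μ] [DecidableEq μ]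

/-- polar decomposition in the form used below -/
theorem polar (V : Matrix ι κ ℂ) : ∃ U : Matrix ι κ ℂ, (U * Uᴴ) * (U * Uᴴ) = U * Uᴴ ∧
    (Uᴴ * U) * (Uᴴ * U) = Uᴴ * U ∧ (Uᴴ * V) * (Vᴴ * U) = Vᴴ * V := by
  have hG : (Vᴴ * V).PosSemidef := posSemidef_conjTranspose_mul_self V
  set d := hG.1.eigenvalues with hd
  have hd0 : ∀ i, 0 ≤ d i := hG.eigenvalues_nonneg
  set Q : Matrix κ κ ℂ := (hG.1.eigenvectorUnitary : Matrix κ κ ℂ) with hQ
  have hQ1 : Qᴴ * Q = 1 := by
    have := (hG.1.eigenvectorUnitary).2.1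
    simpa [hQ, star_eq_conjTranspose] using this
  set D : Matrix κ κ ℂ := diagonal (fun i => ((d i : ℝ) : ℂ)) with hD
  have hsp : Vᴴ * V = Q * D * Qᴴ := by
    have h := hG.1.spectral_theorem
    rw [Unitary.conjStarAlgAut_apply] at h
    simpa [hQ, hD, hd, star_eq_conjTranspose, Function.comp_def] using h
  set s : κ → ℝ := fun i => (Real.sqrt (d i))⁻¹ with hs
  have hs1 : ∀ i, s i * s i * (d i * d i) = d i := by
    intro i
    rcases (hd0 i).eq_or_lt with h | h
    · rw [← h]; ring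
    · have h1 : Real.sqrt (d i) ≠ 0 := (Real.sqrt_pos.2 h).ne'
      have h2 : Real.sqrt (d i) * Real.sqrt (d i) = d i := Real.mul_self_sqrt h.le
      simp only [hs]
      have h3 : d i * d i = d i * (Real.sqrt (d i) * Real.sqrt (d i)) := by rw [h2]
      rw [h3]
      field_simp
  have hs2 : ∀ i, s i * (s i * s i * d i) = s i := by
    intro i
    rcases (hd0 i).eq_or_lt with h | h
    · simp only [hs, ← h]; simp
    · have h1 : Real.sqrt (d i) ≠ 0 := (Real.sqrt_pos.2 h).ne'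
      have h2 : Real.sqrt (d i) * Real.sqrt (d i) = d i := Real.mul_self_sqrt h.le
      simp only [hs]
      have h3 : (Real.sqrt (d i))⁻¹ * (Real.sqrt (d i))⁻¹ * d i = 1 := by
        rw [← mul_inv, h2]
        exact inv_mul_cancel₀ h.ne'
      rw [h3, mul_one]
  set S : Matrix κ κ ℂ := diagonal (fun i => ((s i : ℝ) : ℂ)) with hS
  have hSh : Sᴴ = S := by
    rw [hS, diagonal_conjTranspose]
    congr 1
    funext i
    simp
  have hSDS : S * D * S = diagonal (fun i => ((s i * s i * d i : ℝ) : ℂ)) := by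
    rw [hS, hD, diagonal_mul_diagonal, diagonal_mul_diagonal]
    congr 1
    funext i
    push_cast
    ring
  have hSDDS : S * D * D * S = D := by
    rw [hS, hD, diagonal_mul_diagonal, diagonal_mul_diagonal, diagonal_mul_diagonal]
    congr 1
    funext i
    have := hs1 i
    have h2 : (s i : ℂ) * d i * d i * s i = ((s i * s i * (d i * d i) : ℝ) : ℂ) := by push_cast; ring
    rw [h2, this]
  have hSSDS : S * (S * D * S) = S := by
    rw [hSDS, hS, diagonal_mul_diagonal]
    congr 1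
    funext i
    have := hs2 i
    rw [← Complex.ofReal_mul, this]
  set U : Matrix ι κ ℂ := V * Q * S * Qᴴ with hU
  have hUh : Uᴴ = Q * S * Qᴴ * Vᴴ := by
    rw [hU, conjTranspose_mul, conjTranspose_mul, conjTranspose_mul, conjTranspose_conjTranspose, hSh]
    simp only [Matrix.mul_assoc]
  have cancel : ∀ (A B : Matrix κ κ ℂ), A * Qᴴ * (Q * B) = A * B := by
    intro A B
    rw [Matrix.mul_assoc, ← Matrix.mul_assoc Qᴴ, hQ1, Matrix.one_mul]
  have hUU : Uᴴ * U = Q * (S * D * S) * Qᴴ := by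
    calc Uᴴ * U = Q * S * Qᴴ * (Vᴴ * V) * Q * S * Qᴴ := by
          rw [hUh, hU]; simp only [Matrix.mul_assoc]
      _ = Q * S * (Qᴴ * Q) * D * (Qᴴ * Q) * S * Qᴴ := by
          rw [hsp]; simp only [Matrix.mul_assoc]
      _ = _ := by
          rw [hQ1]; simp only [Matrix.mul_assoc, Matrix.mul_one]
  have hUUU : U * (Uᴴ * U) = U := by
    calc U * (Uᴴ * U) = V * Q * S * (Qᴴ * Q) * (S * D * S) * Qᴴ := by
          rw [hUU, hU]; simp only [Matrix.mul_assoc]
      _ = V * Q * (S * (S * D * S)) * Qᴴ := by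
          rw [hQ1]; simp only [Matrix.mul_assoc, Matrix.one_mul]
      _ = _ := by rw [hSSDS]
  refine ⟨U, ?_, ?_, ?_⟩
  · calc U * Uᴴ * (U * Uᴴ) = U * (Uᴴ * U) * Uᴴ := by simp only [Matrix.mul_assoc]
      _ = _ := by rw [hUUU]
  · calc Uᴴ * U * (Uᴴ * U) = Uᴴ * (U * (Uᴴ * U)) := by simp only [Matrix.mul_assoc]
      _ = _ := by rw [hUUU]
  · calc Uᴴ * V * (Vᴴ * U) = Q * S * Qᴴ * (Vᴴ * V) * ((Vᴴ * V) * (Q * S * Qᴴ)) := by
          rw [hUh, hU]; simp only [Matrix.mul_assoc]
      _ = Q * S * (Qᴴ * Q) * D * (Qᴴ * Q) * D * (Qᴴ * Q) * S * Qᴴ := by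
          rw [hsp]; simp only [Matrix.mul_assoc]
      _ = Q * (S * D * D * S) * Qᴴ := by
          rw [hQ1]; simp only [Matrix.mul_assoc, Matrix.one_mul]
      _ = _ := by rw [hSDDS, hsp]

lemma proj_compl {P : Matrix ι ι ℂ} (h1 : P * P = P) (h2 : Pᴴ = P) : (1 - P).PosSemidef := by
  have e : 1 - P = (1 - P)ᴴ * (1 - P) := by
    rw [conjTranspose_sub, conjTranspose_one, h2, Matrix.mul_sub, Matrix.sub_mul, Matrix.sub_mul, h1]
    simp
  rw [e]
  exact posSemidef_conjTranspose_mul_self _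

lemma tr_re {A : Matrix ι ι ℂ} (h : A.PosSemidef) : 0 ≤ A.trace.re := (Complex.le_def.1 h.trace_nonneg).1

/-- test operators on the frame side give test operators on the space side -/
theorem transfer (V : Matrix ι κ ℂ) {C : Matrix κ κ ℂ} (h0 : C.PosSemidef) (h2 : ((2:ℂ) • 1 - C).PosSemidef) :
    ∃ D : Matrix ι ι ℂ, D.PosSemidef ∧ ((2:ℂ) • 1 - D).PosSemidef ∧
      (V * Vᴴ * D).trace = (Vᴴ * V * C).trace ∧ (D * D).trace.re ≤ (C * C).trace.re := by
  obtain ⟨U, u1, u2, u3⟩ := polar V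
  refine ⟨U * C * Uᴴ, h0.mul_mul_conjTranspose_same U, ?_, ?_, ?_⟩
  · have e : (2:ℂ) • 1 - U * C * Uᴴ = (2:ℂ) • (1 - U * Uᴴ) + U * ((2:ℂ) • 1 - C) * Uᴴ := by
      rw [Matrix.mul_sub, Matrix.sub_mul, smul_sub, Matrix.mul_smul, Matrix.mul_one, Matrix.smul_mul]
      abel
    rw [e]
    refine PosSemidef.add ?_ (h2.mul_mul_conjTranspose_same U)
    refine PosSemidef.smul (proj_compl u1 ?_) (by norm_num)
    rw [conjTranspose_mul, conjTranspose_conjTranspose]
  · calc (V * Vᴴ * (U * C * Uᴴ)).trace = ((V * Vᴴ * U * C) * Uᴴ).trace := by simp only [Matrix.mul_assoc]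
      _ = (Uᴴ * (V * Vᴴ * U * C)).trace := trace_mul_comm _ _
      _ = (Uᴴ * V * (Vᴴ * U) * C).trace := by simp only [Matrix.mul_assoc]
      _ = _ := by rw [u3]
  · set R : Matrix κ κ ℂ := Uᴴ * U with hR
    have hRh : Rᴴ = R := by rw [hR, conjTranspose_mul, conjTranspose_conjTranspose]
    have hCh : Cᴴ = C := h0.1
    have hR1 : (1 - R) * (1 - R) = 1 - R := by
      rw [Matrix.mul_sub, Matrix.sub_mul, Matrix.sub_mul, u2]
      simp
    have hR1h : (1 - R)ᴴ = 1 - R := by rw [conjTranspose_sub, conjTranspose_one, hRh]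
    have e1 : (U * C * Uᴴ * (U * C * Uᴴ)).trace = (C * R * C * R).trace := by
      calc (U * C * Uᴴ * (U * C * Uᴴ)).trace = (U * (C * R * C * Uᴴ)).trace := by
            rw [hR]; simp only [Matrix.mul_assoc]
        _ = (C * R * C * Uᴴ * U).trace := trace_mul_comm _ _
        _ = _ := by rw [hR]; simp only [Matrix.mul_assoc]
    rw [e1]
    have x1 : (((1 - R) * C)ᴴ * ((1 - R) * C)).trace = (C * (1 - R) * C).trace := by
      rw [conjTranspose_mul, hR1h, hCh]
      calc (C * (1 - R) * ((1 - R) * C)).trace = (C * ((1 - R) * (1 - R)) * C).trace := by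
            simp only [Matrix.mul_assoc]
        _ = _ := by rw [hR1]
    have x2 : ((R * C * (1 - R))ᴴ * (R * C * (1 - R))).trace = (C * R * C * (1 - R)).trace := by
      rw [conjTranspose_mul, conjTranspose_mul, hR1h, hCh, hRh]
      calc ((1 - R) * (C * R) * (R * C * (1 - R))).trace = ((1 - R) * (C * (R * R) * C * (1 - R))).trace := by
            simp only [Matrix.mul_assoc]
        _ = (C * (R * R) * C * (1 - R) * (1 - R)).trace := trace_mul_comm _ _
        _ = (C * (R * R) * C * ((1 - R) * (1 - R))).trace := by simp only [Matrix.mul_assoc]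
        _ = _ := by rw [hR1, u2]
    have e2 : (C * C).trace = (C * R * C * R).trace + ((((1 - R) * C)ᴴ * ((1 - R) * C)).trace +
        ((R * C * (1 - R))ᴴ * (R * C * (1 - R))).trace) := by
      rw [x1, x2, ← trace_add, ← trace_add]
      congr 1
      rw [Matrix.mul_sub, Matrix.sub_mul, Matrix.mul_sub, Matrix.mul_one, Matrix.mul_one]
      abel
    have y1 := tr_re (posSemidef_conjTranspose_mul_self ((1 - R) * C))
    have y2 := tr_re (posSemidef_conjTranspose_mul_self (R * C * (1 - R)))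
    rw [e2, Complex.add_re, Complex.add_re]
    linarith

/-- lower bound for `Tr B²`, `B = V Vᴴ - W Wᴴ` -/
theorem trace_lower (V : Matrix ι κ ℂ) (W : Matrix ι μ ℂ) {C : Matrix κ κ ℂ} (h0 : C.PosSemidef)
    (h2 : ((2:ℂ) • 1 - C).PosSemidef) :
    2 * (Vᴴ * V * C).trace.re - (C * C).trace.re - 4 * (Wᴴ * W).trace.re ≤
      ((V * Vᴴ - W * Wᴴ) * (V * Vᴴ - W * Wᴴ)).trace.re := by
  obtain ⟨D, d0, d2, d3, d4⟩ := transfer V h0 h2
  set B : Matrix ι ι ℂ := V * Vᴴ - W * Wᴴ with hB
  have hBh : Bᴴ = B := by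
    rw [hB, conjTranspose_sub, conjTranspose_mul, conjTranspose_mul, conjTranspose_conjTranspose, conjTranspose_conjTranspose]
  have hDh : Dᴴ = D := d0.1
  -- `0 ≤ Tr (B - D)²`
  have h3 := tr_re (posSemidef_conjTranspose_mul_self (B - D))
  rw [conjTranspose_sub, hBh, hDh] at h3
  have e3 : ((B - D) * (B - D)).trace = (B * B).trace - 2 * (B * D).trace + (D * D).trace := by
    have e : (B - D) * (B - D) = B * B - B * D - D * B + D * D := by noncomm_ring
    rw [e, trace_add, trace_sub, trace_sub, trace_mul_comm D B]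
    ring
  rw [e3] at h3
  -- `Tr(W Wᴴ D) ≤ 2 Tr(Wᴴ W)`
  have h4 := tr_re (d2.conjTranspose_mul_mul_same W)
  have e4 : (Wᴴ * ((2:ℂ) • 1 - D) * W).trace = 2 * (Wᴴ * W).trace - (W * Wᴴ * D).trace := by
    rw [Matrix.mul_sub, Matrix.sub_mul, trace_sub, Matrix.mul_smul, Matrix.mul_one, Matrix.smul_mul, trace_smul, smul_eq_mul]
    congr 1
    calc (Wᴴ * D * W).trace = (W * (Wᴴ * D)).trace := trace_mul_comm _ _
      _ = _ := by rw [Matrix.mul_assoc]
  rw [e4] at h4
  have e5 : (B * D).trace = (Vᴴ * V * C).trace - (W * Wᴴ * D).trace := by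
    rw [hB, Matrix.sub_mul, trace_sub, d3]
  rw [e5] at h3
  simp only [Complex.add_re, Complex.sub_re, Complex.mul_re, Complex.re_ofNat, Complex.im_ofNat, zero_mul, sub_zero] at h3 h4
  linarith

end Pool.Agent.Helper6.HM
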